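import Pool.Agent.H.MP_929345_co.Defs

/-! Elementary facts on convex bodies and their gauge. -/

set_option autoImplicit false

namespace Pool.Agent.H.MP_929345_co

open Set Metric

variable {d : ℕ} {C : Set (Fin d → ℝ)}

theorem IsBody.zero_mem_interior (h : IsBody C) : (0 : Fin d → ℝ) ∈ interior C := by
  obtain ⟨x, hx⟩ := h.nonempty
  have hx' : -x ∈ interior C := by
    have h1 : -(interior C) ⊆ C := by
      rintro y hy
      have := h.symm _ (interior_subset (Set.mem_neg.1 hy))
      simpa using this
    have h2 : IsOpen (-(interior C)) := isOpen_interior.neg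
    exact interior_maximal h1 h2 (by simpa using hx)
  have := h.convex.interior hx hx' (by norm_num : (0 : ℝ) ≤ 1 / 2) (by norm_num : (0 : ℝ) ≤ 1 / 2)
    (by norm_num)
  simpa using this

theorem IsBody.nhds (h : IsBody C) : C ∈ nhds (0 : Fin d → ℝ) :=
  mem_interior_iff_mem_nhds.1 h.zero_mem_interior

theorem IsBody.absorbent (h : IsBody C) : Absorbent ℝ C := absorbent_nhds_zero h.nhds

theorem IsBody.gauge_le_one_iff (h : IsBody C) {x : Fin d → ℝ} : gauge C x ≤ 1 ↔ x ∈ C := by
  rw [gauge_le_one_iff_mem_closure h.convex h.nhds, h.compact.isClosed.closure_eq]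

theorem IsBody.gauge_lt_one_iff (h : IsBody C) {x : Fin d → ℝ} :
    gauge C x < 1 ↔ x ∈ interior C := gauge_lt_one_iff_mem_interior h.convex h.nhds

theorem IsBody.gauge_smul (h : IsBody C) (a : ℝ) (x : Fin d → ℝ) :
    gauge C (a • x) = |a| * gauge C x := by
  rcases le_total 0 a with ha | ha
  · rw [gauge_smul_of_nonneg ha, abs_of_nonneg ha, smul_eq_mul]
  · have : a • x = (-a) • (-x) := by simp
    rw [this, gauge_smul_of_nonneg (by linarith), gauge_neg h.symm, abs_of_nonpos ha, smul_eq_mul]

theorem IsBody.gauge_eq_zero_iff (h : IsBody C) (x : Fin d → ℝ) : gauge C x = 0 ↔ x = 0 := by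
  apply gauge_eq_zero h.absorbent
  exact NormedSpace.isVonNBounded_of_isBounded ℝ h.compact.isBounded

end Pool.Agent.H.MP_929345_co
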