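import Pool.Agent.H.MP_929345_co.Cubes

/-! Limits of totally separable packings along an ultrafilter. -/

set_option autoImplicit false

namespace Pool.Agent.H.MP_929345_co

open Set Metric MeasureTheory Filter
open scoped ENNReal Pointwise Topology

variable {d : ℕ} {C : Set (Fin d → ℝ)}

/-- the limit of a sequence of sets along an ultrafilter -/
def limSet (U : Ultrafilter ℕ) (T : ℕ → Set (Fin d → ℝ)) : Set (Fin d → ℝ) :=
  {s | ∃ t : ℕ → (Fin d → ℝ), (∀ᶠ m in (U : Filter ℕ), t m ∈ T m) ∧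
    Tendsto t U (𝓝 s)}

theorem IsBody.continuous_gauge (h : IsBody C) : Continuous (gauge C) := by
  exact _root_.continuous_gauge h.convex h.nhds

theorem limSet_packing (h : IsBody C) (U : Ultrafilter ℕ) (T : ℕ → Set (Fin d → ℝ))
    (hT : ∀ m, TSP C (T m)) : IsPacking C (limSet U T) := by
  rintro x ⟨t, ht, htx⟩ y ⟨u, hu, huy⟩ hxy
  have h1 : Tendsto (fun m => t m - u m) U (𝓝 (x - y)) := htx.sub huy
  have h2 : ∀ᶠ m in (U : Filter ℕ), t m - u m ≠ 0 :=
    h1.eventually_ne (sub_ne_zero.2 hxy)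
  have h3 : Tendsto (fun m => gauge C (t m - u m)) U (𝓝 (gauge C (x - y))) :=
    (h.continuous_gauge.tendsto _).comp h1
  refine ge_of_tendsto h3 ?_
  filter_upwards [ht, hu, h2] with m hm1 hm2 hm3
  exact (hT m).1 _ hm1 _ hm2 (sub_ne_zero.1 hm3)

theorem limSet_totSep (h : IsBody C) (U : Ultrafilter ℕ) (T : ℕ → Set (Fin d → ℝ))
    (hT : ∀ m, TSP C (T m)) : TotSep C (limSet U T) := by
  classical
  rintro x ⟨t, ht, htx⟩ y ⟨u, hu, huy⟩ hxy
  have h1 : Tendsto (fun m => t m - u m) U (𝓝 (x - y)) := htx.sub huy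
  have h2 : ∀ᶠ m in (U : Filter ℕ), t m - u m ≠ 0 :=
    h1.eventually_ne (sub_ne_zero.2 hxy)
  -- normalised separating functionals
  have key : ∀ m, ∃ (f : (Fin d → ℝ) →L[ℝ] ℝ) (τ : ℝ), t m ∈ T m → u m ∈ T m → t m ≠ u m →
      ‖f‖ = 1 ∧ (∀ w ∈ C, f (t m + w) ≤ τ) ∧ (∀ w ∈ C, τ ≤ f (u m + w)) ∧
        ∀ z ∈ T m, ∀ w ∈ interior C, f (z + w) ≠ τ := by
    intro m
    by_cases hm : t m ∈ T m ∧ u m ∈ T m ∧ t m ≠ u m
    · obtain ⟨hm1, hm2, hm3⟩ := hm
      obtain ⟨f, hf, τ, g1, g2, g3⟩ := (hT m).2 _ hm1 _ hm2 hm3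
      have hfn : 0 < ‖f‖ := norm_pos_iff.2 hf
      refine ⟨‖f‖⁻¹ • f, ‖f‖⁻¹ * τ, fun _ _ _ => ⟨?_, ?_, ?_, ?_⟩⟩
      · rw [norm_smul, norm_inv, norm_norm, inv_mul_cancel₀ hfn.ne']
      · intro w hw
        rw [ContinuousLinearMap.smul_apply, smul_eq_mul]
        exact mul_le_mul_of_nonneg_left (g1 w hw) (by positivity)
      · intro w hw
        rw [ContinuousLinearMap.smul_apply, smul_eq_mul]
        exact mul_le_mul_of_nonneg_left (g2 w hw) (by positivity)
      · intro z hz w hw heq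
        rw [ContinuousLinearMap.smul_apply, smul_eq_mul] at heq
        exact g3 z hz w hw (mul_left_cancel₀ (inv_pos.2 hfn).ne' heq)
    · exact ⟨0, 0, fun a b c => absurd ⟨a, b, c⟩ hm⟩
  choose f τ hf using key
  have hev : ∀ᶠ m in (U : Filter ℕ), ‖f m‖ = 1 ∧ (∀ w ∈ C, f m (t m + w) ≤ τ m) ∧
      (∀ w ∈ C, τ m ≤ f m (u m + w)) ∧ ∀ z ∈ T m, ∀ w ∈ interior C, f m (z + w) ≠ τ m := by
    filter_upwards [ht, hu, h2] with m hm1 hm2 hm3
    exact hf m hm1 hm2 (sub_ne_zero.1 hm3)
  -- limit functional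
  obtain ⟨F, hF, hfF⟩ : ∃ F ∈ Metric.closedBall (0 : (Fin d → ℝ) →L[ℝ] ℝ) 1,
      Tendsto f U (𝓝 F) := by
    have hc : IsCompact (Metric.closedBall (0 : (Fin d → ℝ) →L[ℝ] ℝ) 1) :=
      isCompact_closedBall _ _
    have := hc.ultrafilter_le_nhds (U.map f) (by
      rw [Ultrafilter.coe_map, le_principal_iff, mem_map]
      filter_upwards [hev] with m hm
      rw [mem_preimage, mem_closedBall_zero_iff]
      exact hm.1.le)
    exact this
  have hFn : ‖F‖ = 1 := by
    have h3 : Tendsto (fun m => ‖f m‖) U (𝓝 ‖F‖) := hfF.norm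
    have h4 : Tendsto (fun m => ‖f m‖) U (𝓝 1) :=
      Tendsto.congr' (by filter_upwards [hev] with m hm; exact hm.1.symm) tendsto_const_nhds
    exact tendsto_nhds_unique h3 h4
  have happ : ∀ (v : ℕ → (Fin d → ℝ)) (w : Fin d → ℝ), Tendsto v U (𝓝 w) →
      Tendsto (fun m => f m (v m)) U (𝓝 (F w)) := by
    intro v w hv
    have hc : Continuous (fun p : ((Fin d → ℝ) →L[ℝ] ℝ) × (Fin d → ℝ) => p.1 p.2) :=
      isBoundedBilinearMap_apply.continuous
    exact (hc.tendsto (F, w)).comp (hfF.prodMk_nhds hv)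
  have h0C : (0 : Fin d → ℝ) ∈ C := interior_subset h.zero_mem_interior
  -- limit of the offsets
  obtain ⟨τ₀, hτ⟩ : ∃ τ₀ : ℝ, Tendsto τ U (𝓝 τ₀) := by
    have hlow := happ t x htx
    have hup := happ u y huy
    have hc : IsCompact (Set.Icc (F x - 1) (F y + 1)) := isCompact_Icc
    obtain ⟨τ₀, -, h3⟩ := hc.ultrafilter_le_nhds (U.map τ) (by
      rw [Ultrafilter.coe_map, le_principal_iff, mem_map]
      filter_upwards [hev, hlow.eventually (lt_mem_nhds (show F x - 1 < F x by linarith)),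
        hup.eventually (gt_mem_nhds (show F y < F y + 1 by linarith))] with m hm hm1 hm2
      have e1 := hm.2.1 0 h0C
      have e2 := hm.2.2.1 0 h0C
      rw [add_zero] at e1 e2
      exact ⟨by linarith, by linarith⟩)
    exact ⟨τ₀, h3⟩
  refine ⟨F, ?_, τ₀, ?_, ?_, ?_⟩
  · intro h0
    rw [h0, norm_zero] at hFn
    exact zero_ne_one hFn
  · intro w hw
    refine le_of_tendsto_of_tendsto (happ (fun m => t m + w) (x + w) (htx.add_const w)) hτ ?_
    filter_upwards [hev] with m hm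
    exact hm.2.1 w hw
  · intro w hw
    refine le_of_tendsto_of_tendsto hτ (happ (fun m => u m + w) (y + w) (huy.add_const w)) ?_
    filter_upwards [hev] with m hm
    exact hm.2.2.1 w hw
  · rintro z ⟨s, hs, hsz⟩ w hw heq
    -- a direction in which F increases
    obtain ⟨e, he⟩ : ∃ e, F e ≠ 0 := by
      by_contra hcon
      push Not at hcon
      have : F = 0 := ContinuousLinearMap.ext hcon
      rw [this, norm_zero] at hFn
      exact zero_ne_one hFn
    -- one of the two sides is taken eventually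
    have hside : ∀ᶠ m in (U : Filter ℕ), (∀ w ∈ interior C, f m (s m + w) < τ m) ∨
        (∀ w ∈ interior C, τ m < f m (s m + w)) := by
      filter_upwards [hev, hs] with m hm hsm
      by_contra hcon
      push Not at hcon
      obtain ⟨⟨w1, hw1, hw1'⟩, ⟨w2, hw2, hw2'⟩⟩ := hcon
      have hconv : Convex ℝ (interior C) := h.convex.interior
      have hpre : IsPreconnected ((fun w => f m (s m + w)) '' interior C) := by
        apply hconv.isPreconnected.image
        apply Continuous.continuousOn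
        fun_prop
      have hord := hpre.ordConnected
      have hmem : τ m ∈ (fun w => f m (s m + w)) '' interior C :=
        hord.out ⟨w2, hw2, rfl⟩ ⟨w1, hw1, rfl⟩ ⟨hw2', hw1'⟩
      obtain ⟨w3, hw3, hw3'⟩ := hmem
      exact hm.2.2.2 (s m) hsm w3 hw3 hw3'
    have hopen : ∀ v : Fin d → ℝ, ∃ η : ℝ, 0 < η ∧ w + η • v ∈ interior C := by
      intro v
      have h3 : Tendsto (fun η : ℝ => w + η • v) (𝓝[>] 0) (𝓝 w) := by
        have : Tendsto (fun η : ℝ => w + η • v) (𝓝 0) (𝓝 (w + (0 : ℝ) • v)) := by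
          apply Continuous.tendsto
          fun_prop
        rw [zero_smul, add_zero] at this
        exact this.mono_left nhdsWithin_le_nhds
      have h4 := h3.eventually (isOpen_interior.mem_nhds hw)
      obtain ⟨η, hη⟩ := (h4.and self_mem_nhdsWithin).exists
      exact ⟨η, hη.2, hη.1⟩
    rcases Ultrafilter.eventually_or.1 hside with hs1 | hs1
    · have hle : ∀ w ∈ interior C, F (z + w) ≤ τ₀ := by
        intro w hw
        refine le_of_tendsto_of_tendsto (happ (fun m => s m + w) (z + w) (hsz.add_const w)) hτ ?_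
        filter_upwards [hs1] with m hm
        exact (hm w hw).le
      rcases lt_or_gt_of_ne he with hneg | hpos
      · obtain ⟨η, hη, hηm⟩ := hopen (-e)
        have := hle _ hηm
        rw [← add_assoc, map_add, heq, map_smul, map_neg, smul_eq_mul] at this
        nlinarith
      · obtain ⟨η, hη, hηm⟩ := hopen e
        have := hle _ hηm
        rw [← add_assoc, map_add, heq, map_smul, smul_eq_mul] at this
        nlinarith
    · have hle : ∀ w ∈ interior C, τ₀ ≤ F (z + w) := by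
        intro w hw
        refine le_of_tendsto_of_tendsto hτ (happ (fun m => s m + w) (z + w) (hsz.add_const w)) ?_
        filter_upwards [hs1] with m hm
        exact (hm w hw).le
      rcases lt_or_gt_of_ne he with hneg | hpos
      · obtain ⟨η, hη, hηm⟩ := hopen e
        have := hle _ hηm
        rw [← add_assoc, map_add, heq, map_smul, smul_eq_mul] at this
        nlinarith
      · obtain ⟨η, hη, hηm⟩ := hopen (-e)
        have := hle _ hηm
        rw [← add_assoc, map_add, heq, map_smul, map_neg, smul_eq_mul] at this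
        nlinarith

/-- points in a compact set survive in the limit -/
theorem limSet_card (h : IsBody C) (U : Ultrafilter ℕ) (T : ℕ → Set (Fin d → ℝ))
    (hT : ∀ m, TSP C (T m)) (r : ℝ) (k : ℕ)
    (hk : ∀ᶠ m in (U : Filter ℕ), ∃ p : Fin k → (Fin d → ℝ), Function.Injective p ∧
      ∀ j, p j ∈ T m ∧ ∀ i, |p j i| ≤ r) :
    ∃ p : Fin k → (Fin d → ℝ), Function.Injective p ∧ ∀ j, p j ∈ limSet U T ∧ ∀ i, |p j i| ≤ r := by
  classical
  have key : ∀ m, ∃ p : Fin k → (Fin d → ℝ), (∃ p : Fin k → (Fin d → ℝ), Function.Injective p ∧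
      ∀ j, p j ∈ T m ∧ ∀ i, |p j i| ≤ r) → (Function.Injective p ∧
      ∀ j, p j ∈ T m ∧ ∀ i, |p j i| ≤ r) := by
    intro m
    by_cases hm : ∃ p : Fin k → (Fin d → ℝ), Function.Injective p ∧
      ∀ j, p j ∈ T m ∧ ∀ i, |p j i| ≤ r
    · obtain ⟨p, hp⟩ := hm
      exact ⟨p, fun _ => hp⟩
    · exact ⟨fun _ => 0, fun h => absurd h hm⟩
  choose p hp using key
  have hev : ∀ᶠ m in (U : Filter ℕ), Function.Injective (p m) ∧
      ∀ j, p m j ∈ T m ∧ ∀ i, |p m j i| ≤ r := by
    filter_upwards [hk] with m hm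
    exact hp m hm
  have hlim : ∀ j, ∃ q : Fin d → ℝ, (∀ i, |q i| ≤ r) ∧ Tendsto (fun m => p m j) U (𝓝 q) := by
    intro j
    have hc : IsCompact (Set.Icc (fun _ : Fin d => -r) (fun _ => r)) := isCompact_Icc
    obtain ⟨q, hq, hq2⟩ := hc.ultrafilter_le_nhds (U.map (fun m => p m j)) (by
      rw [Ultrafilter.coe_map, le_principal_iff, mem_map]
      filter_upwards [hev] with m hm
      exact ⟨fun i => (abs_le.1 ((hm.2 j).2 i)).1, fun i => (abs_le.1 ((hm.2 j).2 i)).2⟩)
    exact ⟨q, fun i => abs_le.2 ⟨hq.1 i, hq.2 i⟩, hq2⟩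
  choose q hq1 hq2 using hlim
  refine ⟨q, ?_, fun j => ⟨⟨fun m => p m j, ?_, hq2 j⟩, hq1 j⟩⟩
  · intro j j' hjj
    by_contra hne
    have h1 : Tendsto (fun m => gauge C (p m j - p m j')) U (𝓝 (gauge C (q j - q j'))) :=
      (h.continuous_gauge.tendsto _).comp ((hq2 j).sub (hq2 j'))
    have h2 : 2 ≤ gauge C (q j - q j') := by
      refine ge_of_tendsto h1 ?_
      filter_upwards [hev] with m hm
      exact (hT m).1 _ (hm.2 j).1 _ (hm.2 j').1 (fun e => hne (hm.1 e))
    rw [hjj, sub_self, gauge_zero] at h2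
    norm_num at h2
  · filter_upwards [hev] with m hm
    exact (hm.2 j).1

end Pool.Agent.H.MP_929345_co
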