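import Pool.Agent.H.MP_929345_co.Count

/-! From a local separating hyperplane to a global one, for sets with a dense lattice of periods. -/

set_option autoImplicit false

namespace Pool.Agent.H.MP_929345_co

open Set Metric

variable {V : Type*} [NormedAddCommGroup V] [NormedSpace ℝ V]

/-- `L` is `2`-separated and `R`-dense. -/
structure Lat (L : AddSubgroup V) (R : ℝ) : Prop where
  sep : ∀ v ∈ L, v ≠ 0 → 2 ≤ ‖v‖
  cov : ∀ p : V, ∃ v ∈ L, ‖p - v‖ ≤ R

theorem zsmul_mem' {L : AddSubgroup V} {v : V} (hv : v ∈ L) (j : ℤ) : (j : ℝ) • v ∈ L := by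
  rw [Int.cast_smul_eq_zsmul]
  exact L.zsmul_mem hv j

/-- Every functional is large on some short vector. -/
theorem Lat.far {L : AddSubgroup V} {R : ℝ} (hL : Lat L R) (hR : 0 < R) (φ : V →L[ℝ] ℝ) :
    ∃ v ∈ L, ‖v‖ ≤ 3 * R ∧ R / 2 * ‖φ‖ ≤ φ v := by
  rcases eq_or_lt_of_le (norm_nonneg φ) with h0 | h0
  · refine ⟨0, L.zero_mem, by simp; positivity, ?_⟩
    rw [← h0]; simp
  · obtain ⟨u, hu, hu2⟩ := φ.exists_lt_apply_of_lt_opNorm
      (show 3 / 4 * ‖φ‖ < ‖φ‖ by linarith)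
    obtain ⟨w, hw, hw2⟩ : ∃ w : V, ‖w‖ < 1 ∧ 3 / 4 * ‖φ‖ < φ w := by
      rcases le_total 0 (φ u) with h | h
      · exact ⟨u, hu, by rwa [Real.norm_of_nonneg h] at hu2⟩
      · refine ⟨-u, by simpa using hu, ?_⟩
        rw [map_neg]
        rwa [Real.norm_of_nonpos h] at hu2
    obtain ⟨v, hv, hv2⟩ := hL.cov ((2 * R) • w)
    refine ⟨v, hv, ?_, ?_⟩
    · have h1 : ‖v‖ ≤ ‖(2 * R) • w‖ + ‖(2 * R) • w - v‖ := by
        have := norm_sub_le ((2 * R) • w) ((2 * R) • w - v)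
        simpa using this
      have h2 : ‖(2 * R) • w‖ ≤ 2 * R := by
        rw [norm_smul, Real.norm_of_nonneg (by positivity)]
        nlinarith [norm_nonneg w]
      linarith
    · have h1 : φ v = 2 * R * φ w - φ ((2 * R) • w - v) := by
        rw [map_sub, map_smul, smul_eq_mul]; ring
      have h2 : φ ((2 * R) • w - v) ≤ ‖φ‖ * R :=
        calc φ ((2 * R) • w - v) ≤ ‖φ ((2 * R) • w - v)‖ := le_abs_self _
          _ ≤ ‖φ‖ * ‖(2 * R) • w - v‖ := φ.le_opNorm _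
          _ ≤ ‖φ‖ * R := mul_le_mul_of_nonneg_left hv2 (norm_nonneg _)
      have h3 : 2 * R * (3 / 4 * ‖φ‖) ≤ 2 * R * φ w :=
        mul_le_mul_of_nonneg_left hw2.le (by positivity)
      rw [h1]
      nlinarith

/-- The values of a local separating functional on short periods are tiny or large. -/
theorem dich {L : AddSubgroup V} {S : Set V} (hS : ∀ z ∈ S, ∀ v ∈ L, z + v ∈ S)
    {x y : V} (hx : x ∈ S) {D : ℝ} (hxy : ‖y - x‖ ≤ D)
    {f : V →L[ℝ] ℝ} (hf : ‖f‖ = 1) {t : ℝ} (hfx : f x ≤ t - 1) (hfy : t + 1 ≤ f y)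
    {r : ℝ} (hloc : ∀ z ∈ S, ‖z - x‖ ≤ r → f z ≤ t - 1 ∨ t + 1 ≤ f z)
    {B ε : ℝ} (hε : 0 < ε) (hr : (D / ε + 1) * B ≤ r) :
    ∀ v ∈ L, ‖v‖ ≤ B → |f v| < ε ∨ 2 ≤ |f v| := by
  have key : ∀ v ∈ L, ‖v‖ ≤ B → 0 < f v → f v < ε ∨ 2 ≤ f v := by
    intro v hv hvB hpos
    by_contra hcon
    push Not at hcon
    obtain ⟨h1, h2⟩ := hcon
    -- number of steps
    have hB : 0 ≤ B := le_trans (norm_nonneg _) hvB
    have hdist : f y - f x ≤ D := by
      have : f y - f x = f (y - x) := by rw [map_sub]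
      rw [this]
      calc f (y - x) ≤ ‖f (y - x)‖ := le_abs_self _
        _ ≤ ‖f‖ * ‖y - x‖ := f.le_opNorm _
        _ ≤ D := by rw [hf, one_mul]; exact hxy
    set n := ⌊(t - 1 - f x) / f v⌋₊ with hn
    have hnn : (0 : ℝ) ≤ (t - 1 - f x) / f v := div_nonneg (by linarith) hpos.le
    have hn1 : (n : ℝ) ≤ (t - 1 - f x) / f v := Nat.floor_le hnn
    have hn2 : (t - 1 - f x) / f v < n + 1 := Nat.lt_floor_add_one _
    rw [le_div_iff₀ hpos] at hn1
    rw [div_lt_iff₀ hpos] at hn2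
    have hz : x + ((n + 1 : ℕ) : ℝ) • v ∈ S := by
      apply hS x hx
      rw [Nat.cast_smul_eq_nsmul]
      exact L.nsmul_mem hv _
    have hval : f (x + ((n + 1 : ℕ) : ℝ) • v) = f x + (n + 1) * f v := by
      rw [map_add, map_smul, smul_eq_mul]; push_cast; ring
    have hnorm : ‖x + ((n + 1 : ℕ) : ℝ) • v - x‖ ≤ r := by
      rw [add_sub_cancel_left, norm_smul, Real.norm_natCast]
      refine le_trans ?_ hr
      push_cast
      have h3 : (n : ℝ) ≤ D / ε := by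
        rw [le_div_iff₀ hε]
        calc (n : ℝ) * ε ≤ n * f v := mul_le_mul_of_nonneg_left h1 (Nat.cast_nonneg _)
          _ ≤ t - 1 - f x := hn1
          _ ≤ D := by linarith
      have h4 : (0 : ℝ) ≤ n := Nat.cast_nonneg _
      have h5 : (0 : ℝ) ≤ D / ε + 1 := by linarith
      exact mul_le_mul (by linarith) hvB (norm_nonneg _) h5
    rcases hloc _ hz hnorm with h | h
    · rw [hval] at h; linarith
    · rw [hval] at h; nlinarith
  intro v hv hvB
  rcases lt_trichotomy (f v) 0 with h | h | h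
  · have := key (-v) (L.neg_mem hv) (by simpa using hvB) (by rw [map_neg]; linarith)
    rw [map_neg] at this
    rw [abs_of_neg h]
    exact this
  · left; rw [h]; simpa using hε
  · rw [abs_of_pos h]
    exact key v hv hvB h

/-- iterated scales -/
noncomputable def bnd : ℕ → ℝ → ℝ
  | 0, M => M
  | n + 1, M => bnd n (4 * M ^ 2)

theorem le_bnd (n : ℕ) : ∀ M : ℝ, 1 ≤ M → M ≤ bnd n M := by
  induction n with
  | zero => intro M _; exact le_refl _
  | succ n ih =>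
    intro M hM
    have h1 : M ≤ 4 * M ^ 2 := by nlinarith
    exact le_trans h1 (ih _ (by linarith))

/-- Selection of a good scale. -/
theorem scale {L : AddSubgroup V} {f : V →L[ℝ] ℝ} {B ε : ℝ} (hε : 0 < ε) (hε1 : ε ≤ 1 / 2)
    (hd : ∀ v ∈ L, ‖v‖ ≤ B → |f v| < ε ∨ 2 ≤ |f v|) :
    ∀ (n : ℕ) (M : ℝ), 1 ≤ M → bnd n M ≤ B → ∀ v₀ ∈ L, ‖v₀‖ ≤ M → 2 ≤ f v₀ → f v₀ < 2 * n + 2 →
      ∃ M' v', M ≤ M' ∧ 2 * M' ^ 2 ≤ B ∧ v' ∈ L ∧ ‖v'‖ ≤ M' ∧ 2 ≤ f v' ∧
        ∀ v ∈ L, ‖v‖ ≤ 2 * M' ^ 2 → |f v| < ε ∨ f v' - ε ≤ |f v| := by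
  intro n
  induction n with
  | zero =>
    intro M _ _ v₀ _ _ h1 h2
    exfalso
    norm_num at h2
    linarith
  | succ n ih =>
    intro M hM hB v₀ hv₀ hv₀M h1 h2
    have h4 : M ≤ 4 * M ^ 2 := by nlinarith
    have hB' : 4 * M ^ 2 ≤ B := le_trans (le_bnd n _ (by linarith)) hB
    by_cases hgood : ∀ v ∈ L, ‖v‖ ≤ 2 * M ^ 2 → |f v| < ε ∨ f v₀ - ε ≤ |f v|
    · exact ⟨M, v₀, le_refl _, by nlinarith, hv₀, hv₀M, h1, hgood⟩
    · push Not at hgood
      obtain ⟨w, hw, hwM, hw1, hw2⟩ := hgood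
      -- make the value positive
      obtain ⟨v, hv, hvM, hv1, hv2⟩ : ∃ v ∈ L, ‖v‖ ≤ 2 * M ^ 2 ∧ ε ≤ f v ∧ f v < f v₀ - ε := by
        rcases le_total 0 (f w) with h | h
        · rw [abs_of_nonneg h] at hw1 hw2
          exact ⟨w, hw, hwM, hw1, hw2⟩
        · rw [abs_of_nonpos h] at hw1 hw2
          exact ⟨-w, L.neg_mem hw, by simpa using hwM, by rw [map_neg]; exact hw1,
            by rw [map_neg]; exact hw2⟩
      have hM2 : M ≤ 2 * M ^ 2 := by nlinarith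
      have hv3 : 2 ≤ f v := by
        rcases hd v hv (by linarith) with h | h
        · rw [abs_of_nonneg (by linarith)] at h; linarith
        · rwa [abs_of_nonneg (by linarith)] at h
      have hv4 : 2 ≤ f v₀ - f v := by
        have hn : ‖v₀ - v‖ ≤ B := by
          have := norm_sub_le v₀ v
          linarith
        have hval : f (v₀ - v) = f v₀ - f v := map_sub _ _ _
        rcases hd (v₀ - v) (L.sub_mem hv₀ hv) hn with h | h
        · rw [hval, abs_of_nonneg (by linarith)] at h; linarith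
        · rwa [hval, abs_of_nonneg (by linarith)] at h
      push_cast at h2
      obtain ⟨M', v', c1, c2, c3, c4, c5, c6⟩ := ih (4 * M ^ 2) (by linarith) hB v hv
        (by nlinarith) hv3 (by linarith)
      exact ⟨M', v', by linarith, c2, c3, c4, c5, c6⟩

end Pool.Agent.H.MP_929345_co
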