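import Mathlib

/-! Counting lemmas for separated sets and integer relations between short vectors. -/

set_option autoImplicit false

namespace Pool.Agent.H.MP_929345_co

open Set Metric MeasureTheory
open scoped ENNReal

variable {V : Type*} [NormedAddCommGroup V] [NormedSpace ℝ V] [FiniteDimensional ℝ V]

/-- A `2`-separated finite set in the ball of radius `r` has at most `(r+1)^d` elements. -/
theorem card_le_of_separated (s : Finset V) (r : ℝ) (hr : 0 ≤ r) (hs : ∀ c ∈ s, ‖c‖ ≤ r)
    (h : ∀ c ∈ s, ∀ d ∈ s, c ≠ d → 2 ≤ ‖c - d‖) :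
    (s.card : ℝ) ≤ (r + 1) ^ Module.finrank ℝ V := by
  borelize V
  let μ : Measure V := Measure.addHaar
  have ρpos : 0 < r + 1 := by linarith
  set A := ⋃ c ∈ s, ball (c : V) 1 with hA
  have D : Set.Pairwise (s : Set V) (Function.onFun Disjoint fun c => ball (c : V) 1) := by
    rintro c hc d hd hcd
    apply ball_disjoint_ball
    rw [dist_eq_norm]
    have := h c hc d hd hcd
    linarith
  have A_subset : A ⊆ ball (0 : V) (r + 1) := by
    refine iUnion₂_subset fun x hx => ?_
    apply ball_subset_ball'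
    rw [dist_zero_right]
    linarith [hs x hx]
  have I : (s.card : ℝ≥0∞) * μ (ball 0 1) ≤
      ENNReal.ofReal ((r + 1) ^ Module.finrank ℝ V) * μ (ball 0 1) :=
    calc
      (s.card : ℝ≥0∞) * μ (ball 0 1) = μ A := by
        rw [hA, measure_biUnion_finset D fun c _ => measurableSet_ball]
        have : ∀ c : V, μ (ball c 1) = μ (ball 0 1) := fun c => Measure.addHaar_ball_center _ _ _
        simp only [this, Finset.sum_const, nsmul_eq_mul]
      _ ≤ μ (ball (0 : V) (r + 1)) := measure_mono A_subset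
      _ = ENNReal.ofReal ((r + 1) ^ Module.finrank ℝ V) * μ (ball 0 1) := by
        simp only [μ.addHaar_ball_of_pos _ ρpos]
  have J : (s.card : ℝ≥0∞) ≤ ENNReal.ofReal ((r + 1) ^ Module.finrank ℝ V) :=
    (ENNReal.mul_le_mul_iff_left (measure_ball_pos _ _ zero_lt_one).ne' measure_ball_lt_top.ne).1 I
  have := ENNReal.toReal_le_of_le_ofReal (pow_nonneg ρpos.le _) J
  simpa using this

/-- Pigeonhole: `d+1` short vectors of a `2`-separated subgroup satisfy a short integer relation. -/
theorem exists_relation (V : Type*) [NormedAddCommGroup V] [NormedSpace ℝ V]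
    [FiniteDimensional ℝ V] (K : ℝ) (hK : 0 ≤ K) :
    ∃ Q : ℕ, ∀ L : AddSubgroup V, (∀ v ∈ L, v ≠ 0 → 2 ≤ ‖v‖) →
      ∀ (n : ℕ), n = Module.finrank ℝ V + 1 →
      ∀ u : Fin n → V, (∀ i, u i ∈ L) → (∀ i, ‖u i‖ ≤ K) →
      ∃ c : Fin n → ℤ, c ≠ 0 ∧ (∀ i, |(c i : ℝ)| ≤ Q) ∧ ∑ i, (c i : ℝ) • u i = 0 := by
  classical
  set d := Module.finrank ℝ V with hd
  obtain ⟨Q, hQ⟩ := exists_nat_ge (max 1 (((d + 1 : ℕ) * K + 1) ^ d))
  refine ⟨Q, fun L hL n hn u hu huK => ?_⟩
  have hQ1 : (1 : ℝ) ≤ Q := le_trans (le_max_left _ _) hQ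
  have hQ2 : (((d + 1 : ℕ) * K + 1) ^ d : ℝ) ≤ Q := le_trans (le_max_right _ _) hQ
  let F : (Fin n → Fin (Q + 1)) → V := fun a => ∑ i, ((a i : ℕ) : ℝ) • u i
  have hF : ∀ a, F a ∈ L := by
    intro a
    apply AddSubgroup.sum_mem
    intro i _
    rw [Nat.cast_smul_eq_nsmul]
    exact AddSubgroup.nsmul_mem _ (hu i) _
  by_cases hinj : Function.Injective F
  · exfalso
    have hcard := card_le_of_separated (Finset.univ.image F) ((d + 1 : ℕ) * (Q * K)) (by positivity)
      (by
        intro c hc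
        obtain ⟨a, -, rfl⟩ := Finset.mem_image.1 hc
        calc ‖F a‖ ≤ ∑ i, ‖((a i : ℕ) : ℝ) • u i‖ := norm_sum_le _ _
          _ ≤ ∑ _i : Fin n, (Q * K : ℝ) := by
              apply Finset.sum_le_sum
              intro i _
              rw [norm_smul]
              have h1 : ‖((a i : ℕ) : ℝ)‖ ≤ Q := by
                rw [Real.norm_natCast]
                have := (a i).2
                exact_mod_cast (by omega : (a i : ℕ) ≤ Q)
              exact mul_le_mul h1 (huK i) (norm_nonneg _) (by positivity)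
          _ = ((d + 1 : ℕ) : ℝ) * (Q * K) := by
              simp [hn])
      (by
        intro c hc c' hc' hne
        obtain ⟨a, -, rfl⟩ := Finset.mem_image.1 hc
        obtain ⟨b, -, rfl⟩ := Finset.mem_image.1 hc'
        exact hL _ (L.sub_mem (hF a) (hF b)) (sub_ne_zero.2 hne))
    rw [Finset.card_image_of_injective _ hinj, Finset.card_univ, Fintype.card_fun,
      Fintype.card_fin, Fintype.card_fin, hn] at hcard
    push_cast at hcard hQ2
    have h1 : ((d : ℝ) + 1) * (Q * K) + 1 ≤ Q * (((d : ℝ) + 1) * K + 1) := by nlinarith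
    have h2 : (((d : ℝ) + 1) * (Q * K) + 1) ^ d ≤ Q ^ d * (((d : ℝ) + 1) * K + 1) ^ d := by
      rw [← mul_pow]
      exact pow_le_pow_left₀ (by positivity) h1 d
    have h3 : (Q : ℝ) ^ d * (((d : ℝ) + 1) * K + 1) ^ d ≤ Q ^ d * Q :=
      mul_le_mul_of_nonneg_left hQ2 (by positivity)
    have h4 : (Q : ℝ) ^ d * Q < (Q + 1) ^ (d + 1) := by
      rw [← pow_succ]
      exact pow_lt_pow_left₀ (by linarith) (by positivity) (by omega)
    linarith
  · rw [Function.Injective] at hinj
    push Not at hinj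
    obtain ⟨a, b, hab, hne⟩ := hinj
    refine ⟨fun i => ((a i : ℕ) : ℤ) - ((b i : ℕ) : ℤ), ?_, ?_, ?_⟩
    · intro h0
      apply hne
      funext i
      have := congrFun h0 i
      simp only [Pi.zero_apply] at this
      ext
      omega
    · intro i
      have h1 := (a i).2
      have h2 := (b i).2
      rw [abs_le]
      push_cast
      constructor
      · have : ((b i : ℕ) : ℝ) ≤ Q := by exact_mod_cast (by omega : (b i : ℕ) ≤ Q)
        have h3 : (0 : ℝ) ≤ ((a i : ℕ) : ℝ) := Nat.cast_nonneg _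
        linarith
      · have : ((a i : ℕ) : ℝ) ≤ Q := by exact_mod_cast (by omega : (a i : ℕ) ≤ Q)
        have h3 : (0 : ℝ) ≤ ((b i : ℕ) : ℝ) := Nat.cast_nonneg _
        linarith
    · have : F a - F b = 0 := sub_eq_zero.2 hab
      rw [← this, ← Finset.sum_sub_distrib]
      apply Finset.sum_congr rfl
      intro i _
      push_cast
      rw [sub_smul]

end Pool.Agent.H.MP_929345_co
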