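import Pool.Agent.H.MP_929345_co.Example

/-! Maximal totally separable families in cubes. -/

set_option autoImplicit false

namespace Pool.Agent.H.MP_929345_co

open Set Metric MeasureTheory Filter
open scoped ENNReal Pointwise Topology

variable {d : ℕ} {C : Set (Fin d → ℝ)}

/-- half open cube with centre `x` and half side `r` -/
def cub (x : Fin d → ℝ) (r : ℝ) : Set (Fin d → ℝ) := {c | ∀ i, x i - r ≤ c i ∧ c i < x i + r}

/-- totally separable packing -/
def TSP (C T : Set (Fin d → ℝ)) : Prop := IsPacking C T ∧ TotSep C T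

theorem TSP.mono {S T : Set (Fin d → ℝ)} (hT : TSP C T) (hST : S ⊆ T) : TSP C S := by
  refine ⟨fun x hx y hy hxy => hT.1 x (hST hx) y (hST hy) hxy, ?_⟩
  intro x hx y hy hxy
  obtain ⟨f, hf, t, h1, h2, h3⟩ := hT.2 x (hST hx) y (hST hy) hxy
  exact ⟨f, hf, t, h1, h2, fun z hz w hw => h3 z (hST hz) w hw⟩

theorem TSP.image {T : Set (Fin d → ℝ)} (hT : TSP C T) (v : Fin d → ℝ) :
    TSP C ((fun x => x + v) '' T) := by
  constructor
  · rintro _ ⟨x, hx, rfl⟩ _ ⟨y, hy, rfl⟩ hxy
    have e : x + v - (y + v) = x - y := by abel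
    change 2 ≤ gauge C (x + v - (y + v))
    rw [e]
    exact hT.1 x hx y hy (fun h => hxy (by rw [h]))
  · rintro _ ⟨x, hx, rfl⟩ _ ⟨y, hy, rfl⟩ hxy
    obtain ⟨f, hf, t, h1, h2, h3⟩ := hT.2 x hx y hy (fun h => hxy (by rw [h]))
    refine ⟨f, hf, t + f v, ?_, ?_, ?_⟩
    · intro w hw
      have := h1 w hw
      change f (x + v + w) ≤ t + f v
      rw [map_add] at this
      rw [map_add, map_add]
      linarith
    · intro w hw
      have := h2 w hw
      change t + f v ≤ f (y + v + w)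
      rw [map_add] at this
      rw [map_add, map_add]
      linarith
    · rintro _ ⟨z, hz, rfl⟩ w hw heq
      apply h3 z hz w hw
      change f (z + v + w) = t + f v at heq
      rw [map_add, map_add] at heq
      rw [map_add]
      linarith

theorem cub_subset_win {a r : ℝ} (hC : ∀ w ∈ C, ∀ i, |w i| ≤ a) :
    cub (0 : Fin d → ℝ) r ⊆ Win C (r + a) := by
  intro c hc w hw i
  have h1 := hc i
  have h2 := abs_le.1 (hC w hw i)
  rw [Pi.zero_apply] at h1
  rw [abs_le]
  constructor <;> linarith [h1.1, h1.2, h2.1, h2.2]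

/-- the cardinalities of the totally separable families in a cube -/
def cards (C : Set (Fin d → ℝ)) (r : ℝ) : Set ℕ :=
  {n | ∃ T : Finset (Fin d → ℝ), TSP C (T : Set (Fin d → ℝ)) ∧
    (T : Set (Fin d → ℝ)) ⊆ cub 0 r ∧ T.card = n}

/-- the largest number of members of a totally separable family with centres in a cube -/
noncomputable def Nn (C : Set (Fin d → ℝ)) (r : ℝ) : ℕ := sSup (cards C r)

theorem card_bdd (h : IsBody C) {r : ℝ} (hr : 0 ≤ r) : BddAbove (cards C r) := by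
  obtain ⟨a, ha, hC⟩ := h.exists_bound
  obtain ⟨n, hn⟩ : ∃ n : ℕ, ENNReal.ofReal ((4 * (r + a)) ^ d) < n * volume C :=
    ENNReal.exists_nat_mul_gt (h.volume_pos.ne') (ENNReal.ofReal_ne_top)
  refine ⟨n, ?_⟩
  rintro _ ⟨T, hT, hTr, rfl⟩
  have h1 := finset_bound h (T := (T : Set (Fin d → ℝ)))
    (fun x hx y hy hxy => by linarith [hT.1 x hx y hy hxy]) (r := r + a) (by linarith) T
    (fun x hx => ⟨hx, cub_subset_win hC (hTr hx)⟩)
  by_contra hcon
  push Not at hcon
  have h2 : (n : ℝ≥0∞) * volume C ≤ (T.card : ℝ≥0∞) * volume C := by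
    gcongr
  exact absurd (lt_of_lt_of_le hn (le_trans h2 h1)) (lt_irrefl _)

theorem card_nonempty (C : Set (Fin d → ℝ)) (r : ℝ) : (cards C r).Nonempty := by
  refine ⟨0, ∅, ⟨?_, ?_⟩, ?_, rfl⟩
  · intro x hx
    simp at hx
  · intro x hx
    simp at hx
  · simp

theorem exists_max (h : IsBody C) {r : ℝ} (hr : 0 ≤ r) :
    ∃ T : Finset (Fin d → ℝ), TSP C (T : Set (Fin d → ℝ)) ∧
      (T : Set (Fin d → ℝ)) ⊆ cub 0 r ∧ T.card = Nn C r :=
  Nat.sSup_mem (card_nonempty C r) (card_bdd h hr)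

theorem card_le_Nn (h : IsBody C) {r : ℝ} (hr : 0 ≤ r) (T : Finset (Fin d → ℝ))
    (hT : TSP C (T : Set (Fin d → ℝ))) (x : Fin d → ℝ)
    (hTx : (T : Set (Fin d → ℝ)) ⊆ cub x r) : T.card ≤ Nn C r := by
  classical
  have hinj : Function.Injective (fun y : Fin d → ℝ => y + -x) := fun a b hab => by
    simpa using hab
  have hc : (T.image (fun y => y + -x)).card = T.card := Finset.card_image_of_injective _ hinj
  rw [← hc]
  apply le_csSup (card_bdd h hr)
  refine ⟨T.image (fun y => y + -x), ?_, ?_, rfl⟩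
  · rw [Finset.coe_image]
    exact hT.image (-x)
  · intro y hy
    rw [Finset.coe_image] at hy
    obtain ⟨z, hz, rfl⟩ := hy
    intro i
    have := hTx hz i
    simp only [Pi.zero_apply, Pi.add_apply, Pi.neg_apply]
    constructor <;> linarith [this.1, this.2]

theorem card_le_of_local (T : Finset (Fin d → ℝ)) (m N : ℕ) {r : ℝ} (hr : 0 < r)
    (hT : ∀ (x : Fin d → ℝ) (T' : Finset (Fin d → ℝ)), T' ⊆ T →
      (T' : Set (Fin d → ℝ)) ⊆ cub x r → T'.card ≤ N)
    (hsub : (T : Set (Fin d → ℝ)) ⊆ cub 0 (m * r)) : T.card ≤ m ^ d * N := by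
  classical
  let φ : (Fin d → ℝ) → (Fin d → ℕ) := fun c i => ⌊(c i + m * r) / (2 * r)⌋₊
  have h2r : (0 : ℝ) < 2 * r := by linarith
  have h1 : T.card ≤ N * (T.image φ).card := by
    apply Finset.card_le_mul_card_image
    intro k hk
    apply hT (fun i => -(m * r) + 2 * r * (k i) + r) _ (Finset.filter_subset _ _)
    intro c hc
    rw [Finset.coe_filter] at hc
    obtain ⟨hcT, hck⟩ := hc
    intro i
    have h3 : ⌊(c i + m * r) / (2 * r)⌋₊ = k i := congrFun hck i
    have h4 := hsub hcT i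
    rw [Pi.zero_apply] at h4
    have h5 : 0 ≤ (c i + m * r) / (2 * r) := div_nonneg (by linarith [h4.1]) h2r.le
    have h6 := (Nat.floor_eq_iff h5).1 h3
    rw [le_div_iff₀ h2r, div_lt_iff₀ h2r] at h6
    constructor <;> linarith [h6.1, h6.2]
  have h2 : (T.image φ).card ≤ m ^ d := by
    have h3 : T.image φ ⊆ Fintype.piFinset (fun _ : Fin d => Finset.range m) := by
      intro k hk
      obtain ⟨c, hc, rfl⟩ := Finset.mem_image.1 hk
      rw [Fintype.mem_piFinset]
      intro i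
      rw [Finset.mem_range]
      have h4 := hsub hc i
      rw [Pi.zero_apply] at h4
      rw [Nat.floor_lt' (by
        intro h0
        rw [h0] at h4
        simp at h4
        linarith [h4.1, h4.2])]
      rw [div_lt_iff₀ h2r]
      linarith [h4.2]
    refine le_trans (Finset.card_le_card h3) ?_
    rw [Fintype.card_piFinset]
    simp
  calc T.card ≤ N * (T.image φ).card := h1
    _ ≤ N * m ^ d := Nat.mul_le_mul_left _ h2
    _ = m ^ d * N := Nat.mul_comm _ _

/-- normalised maximal number -/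
noncomputable def aa (C : Set (Fin d → ℝ)) (r : ℕ) : ℝ := (Nn C r : ℝ) / (2 * r) ^ d

theorem aa_nonneg (C : Set (Fin d → ℝ)) (r : ℕ) : 0 ≤ aa C r := by
  unfold aa; positivity

theorem aa_mul_le (h : IsBody C) (m r : ℕ) (hm : 0 < m) (hr : 0 < r) :
    aa C (m * r) ≤ aa C r := by
  have hr' : (0 : ℝ) < r := by exact_mod_cast hr
  have hm' : (0 : ℝ) < m := by exact_mod_cast hm
  obtain ⟨T, hT, hTr, hcard⟩ := exists_max h (r := ((m * r : ℕ) : ℝ)) (by positivity)
  have h1 : T.card ≤ m ^ d * Nn C r := by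
    apply card_le_of_local T m (Nn C r) hr'
    · intro x T' hT' hx
      exact card_le_Nn h hr'.le T' (hT.mono (by exact_mod_cast hT')) x hx
    · rw [Nat.cast_mul] at hTr
      exact hTr
  rw [hcard] at h1
  have h1' : (Nn C ((m * r : ℕ) : ℝ) : ℝ) ≤ m ^ d * Nn C r := by exact_mod_cast h1
  unfold aa
  rw [div_le_div_iff₀ (by positivity) (by positivity)]
  have e : ((2 : ℝ) * ((m * r : ℕ) : ℝ)) ^ d = m ^ d * (2 * r) ^ d := by
    rw [← mul_pow]; push_cast; ring_nf
  rw [e]
  calc (Nn C ((m * r : ℕ) : ℝ) : ℝ) * (2 * r) ^ d ≤ (m ^ d * Nn C r) * (2 * r) ^ d := by gcongr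
    _ = Nn C r * (m ^ d * (2 * r) ^ d) := by ring

/-- the limit density of finite totally separable families -/
noncomputable def gam (C : Set (Fin d → ℝ)) : ℝ := ⨅ r : ℕ, aa C (r + 1)

theorem gam_bdd (C : Set (Fin d → ℝ)) : BddBelow (Set.range fun r : ℕ => aa C (r + 1)) :=
  ⟨0, by rintro _ ⟨r, rfl⟩; exact aa_nonneg C _⟩

theorem gam_nonneg (C : Set (Fin d → ℝ)) : 0 ≤ gam C := le_ciInf fun r => aa_nonneg C _

theorem gam_le (r : ℕ) (hr : 0 < r) : gam C ≤ aa C r := by
  have := ciInf_le (gam_bdd C) (r - 1)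
  rwa [Nat.sub_add_cancel hr] at this

theorem exists_near (h : IsBody C) {η : ℝ} (hη : 0 < η) (R : ℕ) :
    ∃ r : ℕ, R ≤ r ∧ 0 < r ∧ aa C r < gam C + η := by
  obtain ⟨r, hr⟩ := exists_lt_of_ciInf_lt (show (⨅ r : ℕ, aa C (r + 1)) < gam C + η by
    change gam C < gam C + η; linarith)
  refine ⟨(R + 1) * (r + 1), ?_, by positivity, lt_of_le_of_lt (aa_mul_le h _ _ (by omega) (by omega)) hr⟩
  nlinarith

end Pool.Agent.H.MP_929345_co
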