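import Mathlib

/-! Definitions for the problem on rho-separable translative packings. -/

set_option autoImplicit false

namespace Pool.Agent.H.MP_929345_co

open MeasureTheory

variable {d : ℕ}

/-- `C` is an `o`-symmetric convex body. -/
structure IsBody (C : Set (Fin d → ℝ)) : Prop where
  convex : Convex ℝ C
  compact : IsCompact C
  nonempty : (interior C).Nonempty
  symm : ∀ x ∈ C, -x ∈ C

/-- The translates `x + C`, `x ∈ S`, form a packing. -/
def IsPacking (C S : Set (Fin d → ℝ)) : Prop :=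
  ∀ x ∈ S, ∀ y ∈ S, x ≠ y → 2 ≤ gauge C (x - y)

/-- The family `x + C`, `x ∈ T`, is totally separable: any two members are separated by a
hyperplane which meets the interior of no member. -/
def TotSep (C T : Set (Fin d → ℝ)) : Prop :=
  ∀ x ∈ T, ∀ y ∈ T, x ≠ y → ∃ f : (Fin d → ℝ) →L[ℝ] ℝ, f ≠ 0 ∧ ∃ t : ℝ,
    (∀ w ∈ C, f (x + w) ≤ t) ∧ (∀ w ∈ C, t ≤ f (y + w)) ∧
    ∀ z ∈ T, ∀ w ∈ interior C, f (z + w) ≠ t

/-- The family is `ρ`-separable: the members inside `c + ρ C` are totally separable, for every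
member `c + C`. -/
def RhoSep (ρ : ℝ) (C S : Set (Fin d → ℝ)) : Prop :=
  ∀ c ∈ S, TotSep C {c' ∈ S | ∀ w ∈ C, ∃ v ∈ C, c' + w = c + ρ • v}

/-- Upper density. -/
noncomputable def dens (C S : Set (Fin d → ℝ)) : ENNReal :=
  Filter.limsup (fun r : ℝ =>
    ((S ∩ {c | ∀ w ∈ C, ∀ i, |c i + w i| ≤ r}).ncard : ENNReal) * volume C
      / ENNReal.ofReal ((2 * r) ^ d)) Filter.atTop

/-- `S` is the union of at most `k` translates of a lattice of full rank. -/
def IsPeriodic (k : ℕ) (S : Set (Fin d → ℝ)) : Prop :=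
  ∃ b : Fin d → (Fin d → ℝ), LinearIndependent ℝ b ∧ ∃ F : Finset (Fin d → ℝ), F.card ≤ k ∧
    S = {x | ∃ s ∈ F, ∃ n : Fin d → ℤ, x = s + ∑ i, (n i : ℝ) • b i}

end Pool.Agent.H.MP_929345_co
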