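import Pool.Agent.H.MP_929345_co.Body

/-! Volume bounds for packings in cubes. -/

set_option autoImplicit false

namespace Pool.Agent.H.MP_929345_co

open Set Metric MeasureTheory Filter
open scoped ENNReal Pointwise Topology

variable {d : ℕ} {C : Set (Fin d → ℝ)}

/-- the centres of the translates of `C` inside the cube of half side `r` -/
def Win (C : Set (Fin d → ℝ)) (r : ℝ) : Set (Fin d → ℝ) := {c | ∀ w ∈ C, ∀ i, |c i + w i| ≤ r}

theorem dens_def (S : Set (Fin d → ℝ)) : dens C S = limsup (fun r : ℝ =>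
    ((S ∩ Win C r).ncard : ENNReal) * volume C / ENNReal.ofReal ((2 * r) ^ d)) atTop := rfl

theorem IsBody.volume_interior (h : IsBody C) : volume (interior C) = volume C := by
  apply le_antisymm (measure_mono interior_subset)
  have h1 : C ⊆ interior C ∪ frontier C := by
    intro x hx
    by_cases hxi : x ∈ interior C
    · exact Or.inl hxi
    · right
      rw [frontier, h.compact.isClosed.closure_eq]
      exact ⟨hx, hxi⟩
  calc volume C ≤ volume (interior C ∪ frontier C) := measure_mono h1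
    _ ≤ volume (interior C) + volume (frontier C) := measure_union_le _ _
    _ = volume (interior C) := by rw [Convex.addHaar_frontier volume h.convex, add_zero]

theorem IsBody.volume_pos (h : IsBody C) : 0 < volume C :=
  lt_of_lt_of_le (isOpen_interior.measure_pos _ h.nonempty) (measure_mono interior_subset)

theorem IsBody.volume_ne_top (h : IsBody C) : volume C ≠ ⊤ := h.compact.measure_lt_top.ne

theorem volume_cube (r : ℝ) (hr : 0 ≤ r) :
    volume {x : Fin d → ℝ | ∀ i, |x i| ≤ r} = ENNReal.ofReal ((2 * r) ^ d) := by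
  have : {x : Fin d → ℝ | ∀ i, |x i| ≤ r} = Icc (fun _ => -r) (fun _ => r) := by
    ext x
    simp only [mem_ofPred_eq, mem_Icc, Pi.le_def, abs_le]
    exact forall_and
  rw [this, Real.volume_Icc_pi]
  simp only [Finset.prod_const, Finset.card_univ, Fintype.card_fin]
  rw [ENNReal.ofReal_pow (by linarith)]
  congr 2
  ring

theorem IsBody.half_subset (h : IsBody C) {w : Fin d → ℝ} (hw : w ∈ (1 / 2 : ℝ) • interior C) :
    w ∈ C ∧ gauge C w < 1 / 2 := by
  obtain ⟨u, hu, rfl⟩ := hw
  have h1 : gauge C u < 1 := h.gauge_lt_one_iff.2 hu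
  have h2 : gauge C ((fun x : Fin d → ℝ => (1 / 2 : ℝ) • x) u) < 1 / 2 := by
    change gauge C ((1 / 2 : ℝ) • u) < 1 / 2
    rw [h.gauge_smul]
    norm_num
    linarith
  exact ⟨h.gauge_le_one_iff.1 (by linarith), h2⟩

theorem finset_bound (h : IsBody C) {T : Set (Fin d → ℝ)}
    (hT : ∀ x ∈ T, ∀ y ∈ T, x ≠ y → 1 ≤ gauge C (x - y)) {r : ℝ} (hr : 0 ≤ r)
    (A : Finset (Fin d → ℝ)) (hA : (A : Set (Fin d → ℝ)) ⊆ T ∩ Win C r) :
    (A.card : ℝ≥0∞) * volume C ≤ ENNReal.ofReal ((4 * r) ^ d) := by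
  have hdisj : Set.Pairwise (A : Set (Fin d → ℝ))
      (Function.onFun Disjoint fun c => (fun x => c + x) '' ((1 / 2 : ℝ) • interior C)) := by
    intro a ha b hb hab
    rw [Function.onFun, Set.disjoint_left]
    rintro z ⟨u, hu, rfl⟩ ⟨v, hv, hz⟩
    have h1 := hT a (hA ha).1 b (hA hb).1 hab
    have h2 : a - b = v + (-u) := by
      have : b + v = a + u := hz
      rw [eq_comm, ← sub_eq_zero] at this
      rw [← sub_eq_zero]
      rw [← this]; abel
    rw [h2] at h1
    have h3 := gauge_add_le h.convex h.absorbent v (-u)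
    rw [gauge_neg h.symm] at h3
    have h4 := (h.half_subset hu).2
    have h5 := (h.half_subset hv).2
    linarith
  have hmeas : ∀ c : Fin d → ℝ, MeasurableSet ((fun x => c + x) '' ((1 / 2 : ℝ) • interior C)) := by
    intro c
    have h1 : IsOpen ((1 / 2 : ℝ) • interior C) := isOpen_interior.smul₀ (by norm_num)
    exact ((Homeomorph.addLeft c).isOpenMap _ h1).measurableSet
  have hvol : ∀ c : Fin d → ℝ, volume ((fun x => c + x) '' ((1 / 2 : ℝ) • interior C))
      = ENNReal.ofReal ((1 / 2) ^ d) * volume C := by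
    intro c
    have h1 : volume ((fun x => c + x) '' ((1 / 2 : ℝ) • interior C))
        = volume ((1 / 2 : ℝ) • interior C) := by
      have := measure_preimage_add volume (-c) ((1 / 2 : ℝ) • interior C)
      rw [← this]
      congr 1
      ext x
      simp only [mem_image, mem_preimage]
      constructor
      · rintro ⟨y, hy, rfl⟩
        simpa using hy
      · intro hx
        exact ⟨-c + x, hx, by abel⟩
    rw [h1, Measure.addHaar_smul, h.volume_interior, Module.finrank_fin_fun, abs_of_nonneg (by positivity)]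
  have hsub : (⋃ c ∈ A, (fun x => c + x) '' ((1 / 2 : ℝ) • interior C))
      ⊆ {x : Fin d → ℝ | ∀ i, |x i| ≤ r} := by
    refine iUnion₂_subset fun c hc => ?_
    rintro z ⟨u, hu, rfl⟩ i
    exact (hA hc).2 u (h.half_subset hu).1 i
  have h1 : (A.card : ℝ≥0∞) * (ENNReal.ofReal ((1 / 2) ^ d) * volume C)
      ≤ ENNReal.ofReal ((2 * r) ^ d) := by
    rw [← volume_cube r hr]
    refine le_trans ?_ (measure_mono hsub)
    rw [measure_biUnion_finset hdisj (fun c _ => hmeas c)]
    simp only [hvol, Finset.sum_const, nsmul_eq_mul, le_refl]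
  have h2 : ENNReal.ofReal ((4 * r) ^ d) = ENNReal.ofReal (2 ^ d) * ENNReal.ofReal ((2 * r) ^ d) := by
    rw [← ENNReal.ofReal_mul (by positivity), ← mul_pow]
    congr 2; ring
  rw [h2]
  calc (A.card : ℝ≥0∞) * volume C
      = ENNReal.ofReal (2 ^ d) * ((A.card : ℝ≥0∞) * (ENNReal.ofReal ((1 / 2) ^ d) * volume C)) := by
        have : ENNReal.ofReal (2 ^ d) * ENNReal.ofReal ((1 / 2) ^ d) = 1 := by
          rw [← ENNReal.ofReal_mul (by positivity), ← mul_pow]
          norm_num
        calc (A.card : ℝ≥0∞) * volume C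
            = (ENNReal.ofReal (2 ^ d) * ENNReal.ofReal ((1 / 2) ^ d)) * ((A.card : ℝ≥0∞) * volume C) := by
              rw [this, one_mul]
          _ = _ := by ring
    _ ≤ ENNReal.ofReal (2 ^ d) * ENNReal.ofReal ((2 * r) ^ d) := by gcongr

theorem finite_inter (h : IsBody C) {T : Set (Fin d → ℝ)}
    (hT : ∀ x ∈ T, ∀ y ∈ T, x ≠ y → 1 ≤ gauge C (x - y)) {r : ℝ} (hr : 0 ≤ r) :
    (T ∩ Win C r).Finite := by
  by_contra hinf
  have hinf' : (T ∩ Win C r).Infinite := hinf
  obtain ⟨n, hn⟩ : ∃ n : ℕ, ENNReal.ofReal ((4 * r) ^ d) < n * volume C := by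
    obtain ⟨n, hn⟩ := ENNReal.exists_nat_mul_gt (h.volume_pos.ne')
      (ENNReal.ofReal_ne_top (r := (4 * r) ^ d))
    exact ⟨n, hn⟩
  obtain ⟨A, hA, hcard⟩ := hinf'.exists_subset_card_eq n
  have := finset_bound h hT hr A hA
  rw [hcard] at this
  exact absurd hn (not_lt.2 this)

theorem ncard_bound (h : IsBody C) {T : Set (Fin d → ℝ)}
    (hT : ∀ x ∈ T, ∀ y ∈ T, x ≠ y → 1 ≤ gauge C (x - y)) {r : ℝ} (hr : 0 ≤ r) :
    ((T ∩ Win C r).ncard : ℝ≥0∞) * volume C ≤ ENNReal.ofReal ((4 * r) ^ d) := by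
  have hfin := finite_inter h hT hr
  have := finset_bound h hT hr hfin.toFinset (by simp)
  rwa [← Set.ncard_eq_toFinset_card _ hfin] at this

theorem win_add {r b : ℝ} {c u : Fin d → ℝ} (hc : c ∈ Win C r) (hu : ∀ i, |u i| ≤ b) :
    c + u ∈ Win C (r + b) := by
  intro w hw i
  have h1 := hc w hw i
  have h2 : (c + u) i + w i = (c i + w i) + u i := by
    rw [Pi.add_apply]; ring
  rw [h2]
  calc |(c i + w i) + u i| ≤ |c i + w i| + |u i| := abs_add_le _ _
    _ ≤ r + b := add_le_add h1 (hu i)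

end Pool.Agent.H.MP_929345_co
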