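import Pool.Agent.H.MP_929345_co.Transfer
import Pool.Agent.H.MP_929345_co.Vol

/-! Volume bounds and upper density of periodic packings. -/

set_option autoImplicit false

namespace Pool.Agent.H.MP_929345_co

open Set Metric MeasureTheory Filter
open scoped ENNReal Pointwise Topology

variable {d : ℕ} {C : Set (Fin d → ℝ)}

/-- Upper density of a periodic set is small if many translates of the lattice are separated. -/
theorem dens_le (h : IsBody C) (L : AddSubgroup (Fin d → ℝ)) (F Q : Finset (Fin d → ℝ))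
    (hQ : 0 < Q.card) (hL : ∀ v ∈ L, v ≠ 0 → 1 ≤ gauge C v)
    (hQL : ∀ q ∈ Q, ∀ q' ∈ Q, q ≠ q' → ∀ v ∈ L, 1 ≤ gauge C (q - q' - v)) :
    dens C {x | ∃ s ∈ F, ∃ v ∈ L, x = s + v} ≤ ENNReal.ofReal (F.card * 2 ^ d / Q.card) := by
  classical
  set S : Set (Fin d → ℝ) := {x | ∃ s ∈ F, ∃ v ∈ L, x = s + v} with hS
  set T : Set (Fin d → ℝ) := {x | ∃ q ∈ Q, ∃ v ∈ L, x = q + v} with hTdef
  have hT : ∀ x ∈ T, ∀ y ∈ T, x ≠ y → 1 ≤ gauge C (x - y) := by
    rintro x ⟨q, hq, v, hv, rfl⟩ y ⟨q', hq', v', hv', rfl⟩ hne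
    by_cases hqq : q = q'
    · subst hqq
      have e1 : q + v - (q + v') = v - v' := by abel
      rw [e1]
      refine hL _ (L.sub_mem hv hv') ?_
      intro h0
      apply hne
      rw [sub_eq_zero.1 h0]
    · have e1 : q + v - (q' + v') = q - q' - (v' - v) := by abel
      rw [e1]
      exact hQL q hq q' hq' hqq _ (L.sub_mem hv' hv)
  obtain ⟨b, hb0, hb⟩ : ∃ b : ℝ, 0 ≤ b ∧ ∀ s ∈ F, ∀ q ∈ Q, ∀ i, |(q - s) i| ≤ b := by
    refine ⟨∑ s ∈ F, ∑ q ∈ Q, ∑ i, |(q - s) i|, by positivity, ?_⟩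
    intro s hs q hq i
    calc |(q - s) i| ≤ ∑ i, |(q - s) i| :=
          Finset.single_le_sum (f := fun i => |(q - s) i|) (fun i _ => abs_nonneg _)
            (Finset.mem_univ i)
      _ ≤ ∑ q ∈ Q, ∑ i, |(q - s) i| :=
          Finset.single_le_sum (f := fun q => ∑ i, |(q - s) i|)
            (fun q _ => Finset.sum_nonneg fun i _ => abs_nonneg _) hq
      _ ≤ _ :=
          Finset.single_le_sum (f := fun s => ∑ q ∈ Q, ∑ i, |(q - s) i|)
            (fun s _ => Finset.sum_nonneg fun q _ => Finset.sum_nonneg fun i _ => abs_nonneg _) hs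
  -- counting
  have hcount : ∀ r : ℝ, 0 ≤ r →
      Q.card * (S ∩ Win C r).ncard ≤ F.card * (T ∩ Win C (r + b)).ncard := by
    intro r hr
    have hfin : (T ∩ Win C (r + b)).Finite := finite_inter h hT (by linarith)
    have hex : ∀ x : Fin d → ℝ, ∃ s : Fin d → ℝ, x ∈ S → s ∈ F ∧ ∃ v ∈ L, x = s + v := by
      intro x
      by_cases hx : x ∈ S
      · obtain ⟨s, hs, v, hv, hxv⟩ := hx
        exact ⟨s, fun _ => ⟨hs, v, hv, hxv⟩⟩
      · exact ⟨0, fun hh => absurd hh hx⟩
    choose σ hσ using hex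
    have hle := Set.ncard_le_ncard_of_injOn (s := (Q : Set (Fin d → ℝ)) ×ˢ (S ∩ Win C r))
      (t := (F : Set (Fin d → ℝ)) ×ˢ (T ∩ Win C (r + b)))
      (fun p : (Fin d → ℝ) × (Fin d → ℝ) => (σ p.2, p.2 + (p.1 - σ p.2)))
      (by
        rintro ⟨q, x⟩ ⟨hq, hxS, hxW⟩
        obtain ⟨hs, v, hv, hxv⟩ := hσ x hxS
        refine ⟨hs, ⟨q, hq, v, hv, ?_⟩, ?_⟩
        · simp only
          conv_lhs => rw [hxv]
          have : σ (σ x + v) = σ x := by rw [← hxv]
          rw [this]
          abel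
        · exact win_add hxW (hb _ hs _ hq))
      (by
        rintro ⟨q, x⟩ ⟨hq, hxS, hxW⟩ ⟨q', x'⟩ ⟨hq', hxS', hxW'⟩ heq
        simp only [Prod.mk.injEq] at heq
        obtain ⟨h1, h2⟩ := heq
        obtain ⟨hs, v, hv, hxv⟩ := hσ x hxS
        obtain ⟨hs', v', hv', hxv'⟩ := hσ x' hxS'
        have h3 : q - q' = v' - v := by
          have h4 : x + (q - σ x) = v + q := by
            conv_lhs => rw [hxv]
            have : σ (σ x + v) = σ x := by rw [← hxv]
            rw [this]; abel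
          have h5 : x' + (q' - σ x') = v' + q' := by
            conv_lhs => rw [hxv']
            have : σ (σ x' + v') = σ x' := by rw [← hxv']
            rw [this]; abel
          rw [h4, h5] at h2
          rw [sub_eq_sub_iff_add_eq_add, add_comm q v, h2, add_comm]
        have hqq : q = q' := by
          by_contra hne
          have := hQL q hq q' hq' hne (v' - v) (L.sub_mem hv' hv)
          rw [h3, sub_self, gauge_zero] at this
          norm_num at this
        subst hqq
        rw [sub_self] at h3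
        have hvv : v' = v := sub_eq_zero.1 h3.symm
        rw [Prod.mk.injEq]
        refine ⟨rfl, ?_⟩
        rw [hxv, hxv', h1, hvv])
      ((F.finite_toSet).prod hfin)
    rw [Set.ncard_prod, Set.ncard_prod, Set.ncard_coe_finset, Set.ncard_coe_finset] at hle
    exact hle
  -- pointwise bound
  have hvol0 : volume C ≠ 0 := h.volume_pos.ne'
  have hQ' : (0 : ℝ) < Q.card := by exact_mod_cast hQ
  have hpt : ∀ r : ℝ, 0 < r →
      ((S ∩ Win C r).ncard : ℝ≥0∞) * volume C / ENNReal.ofReal ((2 * r) ^ d)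
        ≤ ENNReal.ofReal (F.card * 2 ^ d / Q.card * ((r + b) / r) ^ d) := by
    intro r hr
    have h1 := hcount r hr.le
    have h2 := ncard_bound h hT (r := r + b) (by linarith)
    have h3 : (Q.card : ℝ≥0∞) * (((S ∩ Win C r).ncard : ℝ≥0∞) * volume C)
        ≤ (F.card : ℝ≥0∞) * ENNReal.ofReal ((4 * (r + b)) ^ d) := by
      calc (Q.card : ℝ≥0∞) * (((S ∩ Win C r).ncard : ℝ≥0∞) * volume C)
          = ((Q.card * (S ∩ Win C r).ncard : ℕ) : ℝ≥0∞) * volume C := by push_cast; ring
        _ ≤ ((F.card * (T ∩ Win C (r + b)).ncard : ℕ) : ℝ≥0∞) * volume C := by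
            gcongr
        _ = (F.card : ℝ≥0∞) * (((T ∩ Win C (r + b)).ncard : ℝ≥0∞) * volume C) := by
            push_cast; ring
        _ ≤ _ := by gcongr
    have h4 : ((S ∩ Win C r).ncard : ℝ≥0∞) * volume C
        ≤ ENNReal.ofReal (F.card / Q.card * (4 * (r + b)) ^ d) := by
      have hQe : (Q.card : ℝ≥0∞) ≠ 0 := by
        have : Q.card ≠ 0 := hQ.ne'
        exact_mod_cast this
      have h5 : (Q.card : ℝ≥0∞) * ENNReal.ofReal (F.card / Q.card * (4 * (r + b)) ^ d)
          = (F.card : ℝ≥0∞) * ENNReal.ofReal ((4 * (r + b)) ^ d) := by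
        rw [← ENNReal.ofReal_natCast Q.card, ← ENNReal.ofReal_natCast F.card,
          ← ENNReal.ofReal_mul (by positivity), ← ENNReal.ofReal_mul (by positivity)]
        congr 1
        field_simp
      rw [← h5] at h3
      exact (ENNReal.mul_le_mul_iff_right hQe (ENNReal.natCast_ne_top _)).1 h3
    rw [ENNReal.div_le_iff (by
      have : (0 : ℝ) < (2 * r) ^ d := by positivity
      exact (ENNReal.ofReal_pos.2 this).ne') ENNReal.ofReal_ne_top]
    refine le_trans h4 ?_
    rw [← ENNReal.ofReal_mul (by positivity)]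
    apply le_of_eq
    congr 1
    rw [mul_assoc, ← mul_pow, div_mul_eq_mul_div, div_mul_eq_mul_div, mul_assoc, ← mul_pow]
    congr 3
    field_simp
    ring
  -- limit
  have hlim : Tendsto (fun r : ℝ => ENNReal.ofReal (F.card * 2 ^ d / Q.card * ((r + b) / r) ^ d))
      atTop (𝓝 (ENNReal.ofReal (F.card * 2 ^ d / Q.card * 1 ^ d))) := by
    apply ENNReal.tendsto_ofReal
    apply Tendsto.const_mul
    apply Tendsto.pow
    have h1 : Tendsto (fun r : ℝ => 1 + b / r) atTop (𝓝 (1 + 0)) :=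
      tendsto_const_nhds.add (tendsto_const_nhds.div_atTop tendsto_id)
    rw [add_zero] at h1
    refine h1.congr' ?_
    filter_upwards [eventually_gt_atTop 0] with r hr
    field_simp
  rw [one_pow, mul_one] at hlim
  rw [dens_def, ← hlim.limsup_eq]
  apply limsup_le_limsup
  · filter_upwards [eventually_gt_atTop 0] with r hr
    exact hpt r hr
  · exact isCobounded_le_of_bot
  · exact isBounded_le_of_top

end Pool.Agent.H.MP_929345_co
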