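import Pool.Agent.H.MP_929345_co.Periods

/-! The cubic lattice packing: a totally separable lattice packing of positive density, and the
equality of the periodic densities. -/

set_option autoImplicit false

namespace Pool.Agent.H.MP_929345_co

open Set Metric MeasureTheory Filter
open scoped ENNReal Pointwise Topology

variable {d : ℕ} {C : Set (Fin d → ℝ)}

/-- the cubic lattice of mesh `2a` -/
def cubic (d : ℕ) (a : ℝ) : Set (Fin d → ℝ) := {x | ∃ n : Fin d → ℤ, ∀ i, x i = 2 * a * n i}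

theorem cubic_periodic (a : ℝ) (ha : 0 < a) (k : ℕ) (hk : 1 ≤ k) : IsPeriodic k (cubic d a) := by
  classical
  refine ⟨fun i => Pi.single i (2 * a), ?_, {0}, by simpa using hk, ?_⟩
  · rw [Fintype.linearIndependent_iff]
    intro g hg i
    have := congrFun hg i
    simp only [Finset.sum_apply, Pi.smul_apply, smul_eq_mul, Pi.zero_apply, Pi.single_apply,
      mul_ite, mul_zero, Finset.sum_ite_eq, Finset.mem_univ, if_true] at this
    rcases mul_eq_zero.1 this with h | h
    · exact h
    · exact absurd h (by positivity)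
  · ext x
    constructor
    · rintro ⟨n, hn⟩
      refine ⟨0, by simp, n, ?_⟩
      funext i
      simp only [Pi.add_apply, Pi.zero_apply, zero_add, Finset.sum_apply, Pi.smul_apply,
        smul_eq_mul, Pi.single_apply, mul_ite, mul_zero, Finset.sum_ite_eq, Finset.mem_univ,
        if_true]
      rw [hn i]; ring
    · rintro ⟨s, hs, n, rfl⟩
      refine ⟨n, ?_⟩
      intro i
      rw [Finset.mem_singleton] at hs
      subst hs
      simp only [Pi.add_apply, Pi.zero_apply, zero_add, Finset.sum_apply, Pi.smul_apply,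
        smul_eq_mul, Pi.single_apply, mul_ite, mul_zero, Finset.sum_ite_eq, Finset.mem_univ,
        if_true]
      ring

theorem IsBody.coord_le (h : IsBody C) {a : ℝ} (ha : 0 < a) (hC : ∀ w ∈ C, ∀ i, |w i| ≤ a)
    (v : Fin d → ℝ) (i : Fin d) : |v i| ≤ a * gauge C v := by
  rcases eq_or_lt_of_le (gauge_nonneg (s := C) v) with h0 | h0
  · have : v = 0 := (h.gauge_eq_zero_iff v).1 h0.symm
    subst this
    simp
  · set g := gauge C v with hg
    have h1 : gauge C (g⁻¹ • v) ≤ 1 := by
      rw [h.gauge_smul, abs_of_pos (inv_pos.2 h0), ← hg, inv_mul_cancel₀ h0.ne']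
    have h2 := hC _ (h.gauge_le_one_iff.1 h1) i
    rw [Pi.smul_apply, smul_eq_mul, abs_mul, abs_of_pos (inv_pos.2 h0), inv_mul_le_iff₀ h0] at h2
    linarith

theorem IsBody.exists_bound (h : IsBody C) : ∃ a : ℝ, 0 < a ∧ ∀ w ∈ C, ∀ i, |w i| ≤ a := by
  obtain ⟨a, ha, hC⟩ := h.compact.isBounded.exists_pos_norm_le
  exact ⟨a, ha, fun w hw i => le_trans (norm_le_pi_norm w i) (hC w hw)⟩

theorem cubic_ne {a : ℝ} (ha : 0 < a) {x y : Fin d → ℝ} (hx : x ∈ cubic d a) (hy : y ∈ cubic d a)
    {i : Fin d} (hi : x i < y i) : x i + 2 * a ≤ y i := by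
  obtain ⟨n, hn⟩ := hx
  obtain ⟨m, hm⟩ := hy
  rw [hn, hm] at hi ⊢
  have h1 : (n i : ℝ) < m i := lt_of_mul_lt_mul_left hi (by positivity)
  have h2 : (n i : ℝ) + 1 ≤ m i := by exact_mod_cast (show n i < m i by exact_mod_cast h1)
  nlinarith

theorem cubic_packing (h : IsBody C) {a : ℝ} (ha : 0 < a) (hC : ∀ w ∈ C, ∀ i, |w i| ≤ a) :
    IsPacking C (cubic d a) := by
  intro x hx y hy hxy
  obtain ⟨i, hi⟩ := Function.ne_iff.1 hxy
  have h1 : 2 * a ≤ |(x - y) i| := by
    rw [Pi.sub_apply]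
    rcases lt_or_gt_of_ne hi with hlt | hlt
    · have := cubic_ne ha hx hy hlt
      rw [abs_of_neg (by linarith)]; linarith
    · have := cubic_ne ha hy hx hlt
      rw [abs_of_pos (by linarith)]; linarith
  have h2 := h.coord_le ha hC (x - y) i
  nlinarith

theorem cubic_no_hit (h : IsBody C) {a : ℝ} (ha : 0 < a) (hC : ∀ w ∈ C, ∀ i, |w i| ≤ a)
    {x z w : Fin d → ℝ} (hx : x ∈ cubic d a) (hz : z ∈ cubic d a) (hw : w ∈ interior C)
    (i : Fin d) : z i + w i ≠ x i + a := by
  intro heq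
  have h1 : |w i| < a := by
    have h2 := h.coord_le ha hC w i
    have h3 := h.gauge_lt_one_iff.2 hw
    nlinarith
  obtain ⟨h4, h5⟩ := abs_lt.1 h1
  rcases lt_trichotomy (x i) (z i) with hlt | heq' | hlt
  · have := cubic_ne ha hx hz hlt
    linarith
  · linarith
  · have := cubic_ne ha hz hx hlt
    linarith

theorem cubic_totSep (h : IsBody C) {a : ℝ} (ha : 0 < a) (hC : ∀ w ∈ C, ∀ i, |w i| ≤ a) :
    TotSep C (cubic d a) := by
  classical
  intro x hx y hy hxy
  obtain ⟨i, hi⟩ := Function.ne_iff.1 hxy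
  have hproj : (ContinuousLinearMap.proj i : (Fin d → ℝ) →L[ℝ] ℝ) ≠ 0 := by
    intro h0
    have := congrArg (fun f : (Fin d → ℝ) →L[ℝ] ℝ => f (Pi.single i 1)) h0
    simp at this
  rcases lt_or_gt_of_ne hi with hlt | hlt
  · refine ⟨ContinuousLinearMap.proj i, hproj, x i + a, ?_, ?_, ?_⟩
    · intro w hw
      have := (abs_le.1 (hC w hw i)).2
      simp only [ContinuousLinearMap.proj_apply, Pi.add_apply]
      linarith
    · intro w hw
      have h1 := (abs_le.1 (hC w hw i)).1
      have h2 := cubic_ne ha hx hy hlt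
      simp only [ContinuousLinearMap.proj_apply, Pi.add_apply]
      linarith
    · intro z hz w hw
      simp only [ContinuousLinearMap.proj_apply, Pi.add_apply]
      exact cubic_no_hit h ha hC hx hz hw i
  · refine ⟨-ContinuousLinearMap.proj i, neg_ne_zero.2 hproj, -(y i + a), ?_, ?_, ?_⟩
    · intro w hw
      have h1 := (abs_le.1 (hC w hw i)).1
      have h2 := cubic_ne ha hy hx hlt
      simp only [ContinuousLinearMap.neg_apply, ContinuousLinearMap.proj_apply, Pi.add_apply]
      linarith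
    · intro w hw
      have h1 := (abs_le.1 (hC w hw i)).2
      simp only [ContinuousLinearMap.neg_apply, ContinuousLinearMap.proj_apply, Pi.add_apply]
      linarith
    · intro z hz w hw
      simp only [ContinuousLinearMap.neg_apply, ContinuousLinearMap.proj_apply, Pi.add_apply]
      intro heq
      exact cubic_no_hit h ha hC hy hz hw i (by linarith)

/-- The cubic packing has positive density. -/
theorem cubic_dens (h : IsBody C) {a : ℝ} (ha : 0 < a) (hC : ∀ w ∈ C, ∀ i, |w i| ≤ a) :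
    ENNReal.ofReal ((8 * a)⁻¹ ^ d) * volume C ≤ dens C (cubic d a) := by
  classical
  have hpack := cubic_packing h ha hC
  rw [dens_def]
  apply le_limsup_of_frequently_le'
  apply Eventually.frequently
  filter_upwards [eventually_ge_atTop (2 * a)] with r hr
  have hr0 : 0 < r := by linarith
  have hfin : (cubic d a ∩ Win C r).Finite :=
    finite_inter h (fun x hx y hy hxy => by linarith [hpack x hx y hy hxy]) hr0.le
  set m := ⌊(r - a) / (2 * a)⌋₊ with hm
  have hm1 : (m : ℝ) ≤ (r - a) / (2 * a) := Nat.floor_le (div_nonneg (by linarith) (by linarith))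
  have hm2 : (r - a) / (2 * a) < m + 1 := Nat.lt_floor_add_one _
  let φ : (Fin d → Fin (m + 1)) → (Fin d → ℝ) := fun n i => 2 * a * ((n i : ℕ) : ℝ)
  have hφ : Function.Injective φ := by
    intro n n' hnn
    funext i
    have := congrFun hnn i
    simp only [φ] at this
    have h2 : ((n i : ℕ) : ℝ) = ((n' i : ℕ) : ℝ) :=
      mul_left_cancel₀ (by positivity : (2 * a) ≠ 0) this
    exact Fin.ext (by exact_mod_cast h2)
  have hsub : ∀ n, φ n ∈ cubic d a ∩ Win C r := by
    intro n
    refine ⟨⟨fun i => ((n i : ℕ) : ℤ), fun i => by simp [φ]⟩, ?_⟩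
    intro w hw i
    have h1 := abs_le.1 (hC w hw i)
    have h2 : ((n i : ℕ) : ℝ) ≤ m := by exact_mod_cast Nat.lt_succ_iff.1 (n i).2
    have h3 : 2 * a * ((n i : ℕ) : ℝ) ≤ r - a := by
      have := le_trans h2 hm1
      rw [le_div_iff₀ (by positivity)] at this
      linarith
    have h4 : 0 ≤ 2 * a * ((n i : ℕ) : ℝ) := by positivity
    rw [abs_le]
    constructor
    · simp only [φ]; linarith [h1.1]
    · simp only [φ]; linarith [h1.2]
  have hcard : (m + 1) ^ d ≤ (cubic d a ∩ Win C r).ncard := by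
    have h1 : (Set.range φ).ncard ≤ (cubic d a ∩ Win C r).ncard :=
      Set.ncard_le_ncard (by rintro _ ⟨n, rfl⟩; exact hsub n) hfin
    have h2 : (Set.range φ).ncard = (m + 1) ^ d := by
      rw [← Set.image_univ, Set.ncard_image_of_injective _ hφ, Set.ncard_univ,
        Nat.card_eq_fintype_card]
      simp
    omega
  have hcard' : (r / (4 * a)) ^ d ≤ ((cubic d a ∩ Win C r).ncard : ℝ) := by
    calc (r / (4 * a)) ^ d ≤ ((m : ℝ) + 1) ^ d := by
          apply pow_le_pow_left₀ (by positivity)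
          refine le_trans ?_ hm2.le
          rw [div_le_div_iff₀ (by positivity) (by positivity)]
          nlinarith
      _ ≤ _ := by exact_mod_cast hcard
  rw [ENNReal.le_div_iff_mul_le (Or.inl (by
    rw [Ne, ENNReal.ofReal_eq_zero, not_le]; positivity)) (Or.inl ENNReal.ofReal_ne_top)]
  calc ENNReal.ofReal ((8 * a)⁻¹ ^ d) * volume C * ENNReal.ofReal ((2 * r) ^ d)
      = ENNReal.ofReal ((r / (4 * a)) ^ d) * volume C := by
        rw [mul_right_comm, ← ENNReal.ofReal_mul (by positivity), ← mul_pow]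
        congr 3
        field_simp
        norm_num
    _ ≤ ((cubic d a ∩ Win C r).ncard : ℝ≥0∞) * volume C := by
        gcongr
        rw [← ENNReal.ofReal_natCast]
        exact ENNReal.ofReal_le_ofReal hcard'

theorem TotSep.rhoSep {S : Set (Fin d → ℝ)} (hS : TotSep C S) (ρ : ℝ) : RhoSep ρ C S := by
  intro c _ x hx y hy hxy
  obtain ⟨f, hf, t, h1, h2, h3⟩ := hS x hx.1 y hy.1 hxy
  exact ⟨f, hf, t, h1, h2, fun z hz w hw => h3 z hz.1 w hw⟩

/-- Equality of the densities of `k`-periodic packings. -/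
theorem periodic_equality (h : IsBody C) (k : ℕ) :
    ∃ ρ₀ : ℝ, 1 ≤ ρ₀ ∧ ∀ ρ : ℝ, ρ₀ ≤ ρ →
      (⨆ S ∈ {S : Set (Fin d → ℝ) | IsPeriodic k S ∧ IsPacking C S ∧ TotSep C S}, dens C S) =
      ⨆ S ∈ {S : Set (Fin d → ℝ) | IsPeriodic k S ∧ IsPacking C S ∧ RhoSep ρ C S}, dens C S := by
  rcases Nat.eq_zero_or_pos k with hk | hk
  · refine ⟨1, le_rfl, fun ρ _ => ?_⟩
    apply le_antisymm
    · exact biSup_mono fun S hS => ⟨hS.1, hS.2.1, hS.2.2.rhoSep ρ⟩
    · refine biSup_mono fun S hS => ⟨hS.1, hS.2.1, ?_⟩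
      obtain ⟨b, -, F, hF, rfl⟩ := hS.1
      subst hk
      rintro x ⟨s, hs, -⟩
      have : F = ∅ := by simpa using hF
      rw [this] at hs
      exact absurd hs (Finset.notMem_empty _)
  · obtain ⟨a, ha, hC⟩ := h.exists_bound
    have hvol := ENNReal.toReal_pos h.volume_pos.ne' h.volume_ne_top
    set δ : ℝ := (8 * a)⁻¹ ^ d * (volume C).toReal with hδ
    have hδ0 : 0 < δ := by positivity
    have hδ1 : ENNReal.ofReal δ ≤ dens C (cubic d a) := by
      have := cubic_dens h ha hC
      rwa [hδ, ENNReal.ofReal_mul (by positivity), ENNReal.ofReal_toReal h.volume_ne_top]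
    obtain ⟨ρ₀, hρ₀, hmain⟩ := structural (C := C) h k δ hδ0
    refine ⟨ρ₀, hρ₀, fun ρ hρ => ?_⟩
    apply le_antisymm
    · exact biSup_mono fun S hS => ⟨hS.1, hS.2.1, hS.2.2.rhoSep ρ⟩
    · refine iSup₂_le fun S hS => ?_
      rcases le_total (ENNReal.ofReal δ) (dens C S) with hle | hle
      · exact le_biSup (f := fun S => dens C S)
          (show S ∈ {S : Set (Fin d → ℝ) | IsPeriodic k S ∧ IsPacking C S ∧ TotSep C S} from
            ⟨hS.1, hS.2.1, hmain ρ hρ S hS.1 hS.2.1 hS.2.2 hle⟩)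
      · refine le_trans hle (le_trans hδ1 ?_)
        exact le_biSup (f := fun S => dens C S)
          (show cubic d a ∈ {S : Set (Fin d → ℝ) | IsPeriodic k S ∧ IsPacking C S ∧ TotSep C S} from
            ⟨cubic_periodic a ha k hk, cubic_packing h ha hC, cubic_totSep h ha hC⟩)

end Pool.Agent.H.MP_929345_co
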