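import Pool.Agent.H.MP_929345_co.Core

/-! A local separating hyperplane between close points can be replaced by a global one. -/

set_option autoImplicit false

namespace Pool.Agent.H.MP_929345_co

open Set Metric

/-- the vectors on which the functional is tiny do not span the space -/
theorem span_ne_top {V : Type*} [NormedAddCommGroup V] [NormedSpace ℝ V] [FiniteDimensional ℝ V]
    {L : AddSubgroup V} (f : V →L[ℝ] ℝ) {K ε : ℝ} {Q : ℕ}
    (hQ : ∀ (n : ℕ), n = Module.finrank ℝ V + 1 →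
      ∀ u : Fin n → V, (∀ i, u i ∈ L) → (∀ i, ‖u i‖ ≤ K) →
      ∃ c : Fin n → ℤ, c ≠ 0 ∧ (∀ i, |(c i : ℝ)| ≤ Q) ∧ ∑ i, (c i : ℝ) • u i = 0)
    (hε : 0 < ε) (hεQ : Module.finrank ℝ V * (Q * ε) < 2)
    {v₀ : V} (hv₀ : v₀ ∈ L) (hv₀K : ‖v₀‖ ≤ K) (hfv₀ : 2 ≤ f v₀) {T : Set V}
    (hT : ∀ w ∈ T, w ∈ L ∧ ‖w‖ ≤ K ∧ |f w| < ε) :
    Submodule.span ℝ T ≠ ⊤ := by
  intro htop
  obtain ⟨b, hbT, hbspan, hbli⟩ := exists_linearIndependent ℝ T
  rw [htop] at hbspan
  let bas : Module.Basis b ℝ V := Module.Basis.mk hbli (by rw [Subtype.range_coe, hbspan])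
  haveI : Fintype b := FiniteDimensional.fintypeBasisIndex bas
  have hcard : Fintype.card b = Module.finrank ℝ V := (Module.finrank_eq_card_basis bas).symm
  let e : Fin (Module.finrank ℝ V) ≃ b := (Fintype.equivFinOfCardEq hcard).symm
  obtain ⟨c, hc0, hcQ, hcs⟩ := hQ (Module.finrank ℝ V + 1) rfl
    (Fin.cons v₀ (fun i => ((e i : b) : V)))
    (by
      intro i
      refine Fin.cases ?_ (fun i => ?_) i
      · simpa using hv₀
      · simpa using (hT _ (hbT (e i).2)).1)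
    (by
      intro i
      refine Fin.cases ?_ (fun i => ?_) i
      · simpa using hv₀K
      · simpa using (hT _ (hbT (e i).2)).2.1)
  rw [Fin.sum_univ_succ] at hcs
  simp only [Fin.cons_zero, Fin.cons_succ] at hcs
  have hli : LinearIndependent ℝ (fun i : Fin (Module.finrank ℝ V) => ((e i : b) : V)) :=
    hbli.comp e e.injective
  by_cases h0 : c 0 = 0
  · rw [h0] at hcs
    simp only [Int.cast_zero, zero_smul, zero_add] at hcs
    have := Fintype.linearIndependent_iff.1 hli _ hcs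
    apply hc0
    funext i
    refine Fin.cases ?_ (fun i => ?_) i
    · simpa using h0
    · simpa using this i
  · have h1 : (1 : ℝ) ≤ |(c 0 : ℝ)| := by
      have : (1 : ℤ) ≤ |c 0| := Int.one_le_abs h0
      exact_mod_cast this
    have h2 : (c 0 : ℝ) * f v₀ = - ∑ i : Fin (Module.finrank ℝ V), (c i.succ : ℝ) * f (e i) := by
      have := congrArg f hcs
      rw [map_add, map_smul, map_sum, map_zero, smul_eq_mul] at this
      simp only [map_smul, smul_eq_mul] at this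
      linarith
    have h3 : |(c 0 : ℝ) * f v₀| ≤ Module.finrank ℝ V * (Q * ε) := by
      rw [h2, abs_neg]
      calc |∑ i : Fin (Module.finrank ℝ V), (c i.succ : ℝ) * f (e i)|
          ≤ ∑ i : Fin (Module.finrank ℝ V), |(c i.succ : ℝ) * f (e i)| :=
            Finset.abs_sum_le_sum_abs _ _
        _ ≤ ∑ _i : Fin (Module.finrank ℝ V), (Q * ε : ℝ) := by
            apply Finset.sum_le_sum
            intro i _
            rw [abs_mul]
            exact mul_le_mul (hcQ _) (hT _ (hbT (e i).2)).2.2.le (abs_nonneg _)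
              (Nat.cast_nonneg _)
        _ = Module.finrank ℝ V * (Q * ε) := by simp
    rw [abs_mul, abs_of_nonneg (by linarith : (0 : ℝ) ≤ f v₀)] at h3
    nlinarith

/-- Step 2: from a local separating hyperplane to a global one. -/
theorem step2 (V : Type*) [NormedAddCommGroup V] [NormedSpace ℝ V] [FiniteDimensional ℝ V]
    (R D : ℝ) (hR : 4 ≤ R) (hD : 0 ≤ D) :
    ∃ r₀ : ℝ, 0 ≤ r₀ ∧ ∀ (L : AddSubgroup V), Lat L R → ∀ S : Set V,
      (∀ z ∈ S, ∀ v ∈ L, z + v ∈ S) → ∀ x ∈ S, ∀ y ∈ S, ‖y - x‖ ≤ D →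
      ∀ f : V →L[ℝ] ℝ, ‖f‖ = 1 → ∀ t : ℝ, f x ≤ t - 1 → t + 1 ≤ f y → ∀ r : ℝ, r₀ ≤ r →
      (∀ z ∈ S, ‖z - x‖ ≤ r → f z ≤ t - 1 ∨ t + 1 ≤ f z) →
      ∃ (g : V →L[ℝ] ℝ) (t₁ : ℝ), ∃ v₀ ∈ L, 0 < ‖g‖ ∧ 2 * ‖g‖ ≤ g v₀ ∧
        (∀ v ∈ L, ∃ j : ℤ, g v = j * g v₀) ∧ g x ≤ t₁ - ‖g‖ ∧ t₁ + ‖g‖ ≤ g y ∧
        ∀ z ∈ S, ‖g‖ ≤ |g z - t₁| := by
  classical
  -- constants
  set n₀ := ⌈3 * R⌉₊ with hn₀
  set B := bnd n₀ (3 * R + 2) with hB
  have hB1 : 3 * R + 2 ≤ B := le_bnd _ _ (by linarith)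
  obtain ⟨Q, hQ⟩ := exists_relation V B (by linarith)
  set d := Module.finrank ℝ V with hd
  set ε : ℝ := 1 / (d * Q + 2) with hε
  have hdQ : (0 : ℝ) ≤ d * Q := by positivity
  have hεpos : 0 < ε := by positivity
  have hεle : ε ≤ 1 / 2 := by
    rw [hε]
    exact one_div_le_one_div_of_le (by norm_num) (by linarith)
  have hεQ : (d : ℝ) * (Q * ε) < 2 := by
    rw [hε, ← mul_assoc, mul_one_div, div_lt_iff₀ (by linarith)]
    linarith
  set rl := R + (D + R) * B with hrl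
  have hBpos : 0 < B := by linarith
  have hrl0 : 0 < rl := by positivity
  set J := ⌈rl⌉₊ + 1 with hJ
  have hJ1 : rl + 1 ≤ J := by
    rw [hJ]; push_cast
    linarith [Nat.le_ceil rl]
  refine ⟨max ((D / ε + 1) * B) (rl + J * B), ?_, ?_⟩
  · apply le_max_of_le_right; positivity
  intro L hL S hS x hx y hy hxy f hf t hfx hfy r hr hloc
  have hr1 : (D / ε + 1) * B ≤ r := le_trans (le_max_left _ _) hr
  have hr2 : rl + J * B ≤ r := le_trans (le_max_right _ _) hr
  have hrelL := hQ L hL.sep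
  have hdich := dich hS hx hxy hf hfx hfy hloc hεpos hr1
  -- first vector
  obtain ⟨vi, hvi, hviR, hvi2⟩ := hL.far (by linarith) f
  rw [hf] at hvi2
  have hvi3 : f vi < 2 * n₀ + 2 := by
    have h1 : f vi ≤ ‖f vi‖ := le_abs_self _
    have h2 : ‖f vi‖ ≤ 1 * ‖vi‖ := by rw [← hf]; exact f.le_opNorm _
    have h3 : 3 * R ≤ n₀ := Nat.le_ceil _
    have h4 : (0 : ℝ) ≤ n₀ := Nat.cast_nonneg _
    linarith
  obtain ⟨M, v₀, hM1, hM2, hv₀, hv₀M, hv₀2, hgood⟩ := scale hεpos hεle hdich n₀ (3 * R + 2)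
    (by linarith) (le_refl _) vi hvi (by linarith) (by linarith) hvi3
  have hM0 : 1 ≤ M := by linarith
  have hMB : M ≤ B := by nlinarith
  set γ := f v₀ with hγ
  -- integer approximation
  have happ : ∀ v ∈ L, ‖v‖ ≤ M → ∃ j : ℤ, |(j : ℝ)| ≤ M ∧ |f v - j * γ| < ε ∧
      ‖v - (j : ℝ) • v₀‖ ≤ 2 * M ^ 2 ∧ v - (j : ℝ) • v₀ ∈ L := by
    intro v hv hvM
    have hγpos : 0 < γ := by linarith
    have hj1 := abs_sub_round (f v / γ)
    set j := round (f v / γ) with hj
    have hfv : |f v| ≤ M := by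
      have : ‖f v‖ ≤ 1 * ‖v‖ := by rw [← hf]; exact f.le_opNorm _
      rw [Real.norm_eq_abs] at this
      linarith
    have h1 : |f v - j * γ| ≤ γ / 2 := by
      have : f v - j * γ = (f v / γ - j) * γ := by field_simp
      rw [this, abs_mul, abs_of_pos hγpos]
      nlinarith
    have h2 : |(j : ℝ)| ≤ M := by
      have h3 : |f v / γ| ≤ M / 2 := by
        rw [abs_div, abs_of_pos hγpos, div_le_iff₀ hγpos]
        nlinarith
      have h4 : |(j : ℝ)| ≤ |f v / γ| + |f v / γ - j| := by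
        have := abs_sub_abs_le_abs_sub (j : ℝ) (f v / γ)
        rw [abs_sub_comm] at this
        linarith
      linarith
    have h3 : ‖v - (j : ℝ) • v₀‖ ≤ 2 * M ^ 2 := by
      calc ‖v - (j : ℝ) • v₀‖ ≤ ‖v‖ + ‖(j : ℝ) • v₀‖ := norm_sub_le _ _
        _ ≤ M + M * M := by
            rw [norm_smul, Real.norm_eq_abs]
            exact add_le_add hvM (mul_le_mul h2 hv₀M (norm_nonneg _) (by linarith))
        _ ≤ 2 * M ^ 2 := by nlinarith
    have h4 : v - (j : ℝ) • v₀ ∈ L := L.sub_mem hv (zsmul_mem' hv₀ j)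
    have h5 : f (v - (j : ℝ) • v₀) = f v - j * γ := by
      rw [map_sub, map_smul, smul_eq_mul]
    refine ⟨j, h2, ?_, h3, h4⟩
    rcases hgood _ h4 h3 with h | h
    · rwa [h5] at h
    · rw [h5] at h
      linarith
  -- tiny vectors
  set T : Set V := {w | w ∈ L ∧ ‖w‖ ≤ 2 * M ^ 2 ∧ |f w| < ε} with hTdef
  have hTne : Submodule.span ℝ T ≠ ⊤ :=
    span_ne_top f hrelL hεpos hεQ hv₀ (by linarith) hv₀2
      (fun w hw => ⟨hw.1, by linarith [hw.2.1], hw.2.2⟩)
  have hv₀T : v₀ ∉ Submodule.span ℝ T := by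
    intro hmem
    apply hTne
    by_contra hne
    obtain ⟨p, hp⟩ : ∃ p, p ∉ Submodule.span ℝ T := by
      by_contra hcon
      push Not at hcon
      exact hne (Submodule.eq_top_iff'.2 hcon)
    obtain ⟨φ, hφp, hφ⟩ := Submodule.exists_le_ker_of_notMem hp
    obtain ⟨v, hv, hvR, hv2⟩ := hL.far (by linarith) (LinearMap.toContinuousLinearMap φ)
    obtain ⟨j, -, h2, h3, h4⟩ := happ v hv (by linarith)
    have h5 : v - (j : ℝ) • v₀ ∈ Submodule.span ℝ T :=
      Submodule.subset_span ⟨h4, h3, by rwa [map_sub, map_smul, smul_eq_mul]⟩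
    have h6 : v ∈ Submodule.span ℝ T := by
      have := (Submodule.span ℝ T).add_mem h5 ((Submodule.span ℝ T).smul_mem (j : ℝ) hmem)
      simpa using this
    have h7 : φ v = 0 := by simpa using hφ h6
    have h8 : (LinearMap.toContinuousLinearMap φ) v = 0 := by
      simpa using h7
    rw [h8] at hv2
    have h9 : ‖LinearMap.toContinuousLinearMap φ‖ = 0 := by
      have := norm_nonneg (LinearMap.toContinuousLinearMap φ)
      nlinarith
    rw [norm_eq_zero] at h9
    apply hφp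
    have := congrArg (fun (ψ : V →L[ℝ] ℝ) => ψ p) h9
    simpa using this
  obtain ⟨φ, hφ0, hφT⟩ := Submodule.exists_le_ker_of_notMem hv₀T
  set g : V →L[ℝ] ℝ := (γ / φ v₀) • LinearMap.toContinuousLinearMap φ with hg
  have hgapp : ∀ v, g v = γ / φ v₀ * φ v := by
    intro v; simp [hg]
  have hgv₀ : g v₀ = γ := by rw [hgapp]; field_simp
  have hgT : ∀ w ∈ T, g w = 0 := by
    intro w hw
    have : φ w = 0 := by simpa using hφT (Submodule.subset_span hw)
    rw [hgapp, this, mul_zero]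
  have hgshort : ∀ v ∈ L, ‖v‖ ≤ M → ∃ j : ℤ, |(j : ℝ)| ≤ M ∧ g v = j * γ ∧ |f v - g v| < ε ∧
      ‖v - (j : ℝ) • v₀‖ ≤ 2 * M ^ 2 ∧ v - (j : ℝ) • v₀ ∈ L := by
    intro v hv hvM
    obtain ⟨j, h1, h2, h3, h4⟩ := happ v hv hvM
    have h5 : g (v - (j : ℝ) • v₀) = 0 :=
      hgT _ ⟨h4, h3, by rwa [map_sub, map_smul, smul_eq_mul]⟩
    rw [map_sub, map_smul, smul_eq_mul, hgv₀, sub_eq_zero] at h5
    exact ⟨j, h1, h5, by rwa [h5], h3, h4⟩
  have hgall : ∀ v ∈ L, ∃ j : ℤ, g v = j * γ := by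
    have key : ∀ n : ℕ, ∀ v ∈ L, ‖v‖ ≤ n * R + 3 * R → ∃ j : ℤ, g v = j * γ := by
      intro n
      induction n with
      | zero =>
        intro v hv hvn
        obtain ⟨j, -, h, -⟩ := hgshort v hv (by simp at hvn; linarith)
        exact ⟨j, h⟩
      | succ n ih =>
        intro v hv hvn
        by_cases hsmall : ‖v‖ ≤ 3 * R
        · obtain ⟨j, -, h, -⟩ := hgshort v hv (by linarith)
          exact ⟨j, h⟩
        · push Not at hsmall
          have hvpos : 0 < ‖v‖ := by linarith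
          obtain ⟨w, hw, hw2⟩ := hL.cov ((2 * R / ‖v‖) • v)
          have h1 : ‖(2 * R / ‖v‖) • v‖ = 2 * R := by
            rw [norm_smul, Real.norm_of_nonneg (by positivity)]
            field_simp
          have h2 : ‖w‖ ≤ 3 * R := by
            have := norm_sub_le ((2 * R / ‖v‖) • v) ((2 * R / ‖v‖) • v - w)
            rw [sub_sub_cancel, h1] at this
            linarith
          have h3 : ‖v - w‖ ≤ n * R + 3 * R := by
            have e1 : v - w = (1 - 2 * R / ‖v‖) • v + ((2 * R / ‖v‖) • v - w) := by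
              rw [sub_smul, one_smul]; abel
            have e2 : ‖(1 - 2 * R / ‖v‖) • v‖ = ‖v‖ - 2 * R := by
              rw [norm_smul, Real.norm_of_nonneg (by
                rw [sub_nonneg, div_le_one hvpos]; linarith)]
              field_simp
            calc ‖v - w‖ ≤ ‖(1 - 2 * R / ‖v‖) • v‖ + ‖(2 * R / ‖v‖) • v - w‖ := by
                  rw [e1]; exact norm_add_le _ _
              _ ≤ n * R + 3 * R := by
                  rw [e2]; push_cast at hvn; linarith
          obtain ⟨j1, hj1⟩ := ih (v - w) (L.sub_mem hv hw) h3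
          obtain ⟨j2, -, hj2, -⟩ := hgshort w hw (by linarith)
          refine ⟨j1 + j2, ?_⟩
          have : g v = g (v - w) + g w := by rw [map_sub]; ring
          rw [this, hj1, hj2]; push_cast; ring
    intro v hv
    obtain ⟨n, hn⟩ := exists_nat_ge (‖v‖ / R)
    rw [div_le_iff₀ (by linarith)] at hn
    exact key n v hv (by linarith)
  -- the error functional
  set e : V →L[ℝ] ℝ := f - g with he
  have heapp : ∀ v, e v = f v - g v := fun v => rfl
  obtain ⟨ve, hve, hveR, hve2⟩ := hL.far (by linarith) e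
  obtain ⟨j, hjM, hj1, hj2, hj3, hj4⟩ := hgshort ve hve (by linarith)
  set w₁ := ve - (j : ℝ) • v₀ with hw₁
  have hgw₁ : g w₁ = 0 := by
    rw [hw₁, map_sub, map_smul, smul_eq_mul, hgv₀, hj1, sub_self]
  have hfw₁ : f w₁ = e ve := by
    rw [hw₁, map_sub, map_smul, smul_eq_mul, heapp, hj1]
  have hfw₁ε : f w₁ < ε := by
    rw [hfw₁, heapp]; exact lt_of_le_of_lt (le_abs_self _) hj2
  have henorm : 2 * ‖e‖ ≤ f w₁ := by
    rw [hfw₁]
    have := norm_nonneg e
    nlinarith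
  have hen0 : 0 ≤ ‖e‖ := norm_nonneg e
  have hfw₁0 : 0 ≤ f w₁ := by linarith
  have hw₁B : ‖w₁‖ ≤ B := by linarith
  have hgn1 : ‖g‖ ≤ 1 + ‖e‖ := by
    have : g = f - e := by rw [he]; abel
    rw [this]
    calc ‖f - e‖ ≤ ‖f‖ + ‖e‖ := norm_sub_le _ _
      _ = 1 + ‖e‖ := by rw [hf]
  have hgn2 : 1 - ‖e‖ ≤ ‖g‖ := by
    have : f = g + e := by rw [he]; abel
    have h1 : ‖f‖ ≤ ‖g‖ + ‖e‖ := by
      calc ‖f‖ = ‖g + e‖ := by rw [← this]
        _ ≤ ‖g‖ + ‖e‖ := norm_add_le _ _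
    rw [hf] at h1; linarith
  have hgpos : 0 < ‖g‖ := by linarith
  have hγpos : 0 < γ := by linarith
  -- chains
  have hchainL : ∀ z ∈ S, ‖z - x‖ ≤ rl → f z ≤ t - 1 → f z + J * f w₁ ≤ t - 1 := by
    intro z hz hzx hfz
    have key : ∀ i : ℕ, i ≤ J → f z + i * f w₁ ≤ t - 1 := by
      intro i
      induction i with
      | zero => intro _; simpa using hfz
      | succ i ih =>
        intro hi
        have h1 := ih (by omega)
        have hz' : z + ((i + 1 : ℕ) : ℝ) • w₁ ∈ S := by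
          apply hS z hz
          rw [Nat.cast_smul_eq_nsmul]
          exact L.nsmul_mem hj4 _
        have h2 : ‖z + ((i + 1 : ℕ) : ℝ) • w₁ - x‖ ≤ r := by
          have e1 : z + ((i + 1 : ℕ) : ℝ) • w₁ - x = (z - x) + ((i + 1 : ℕ) : ℝ) • w₁ := by abel
          rw [e1]
          calc ‖(z - x) + ((i + 1 : ℕ) : ℝ) • w₁‖ ≤ ‖z - x‖ + ‖((i + 1 : ℕ) : ℝ) • w₁‖ :=
                norm_add_le _ _
            _ ≤ rl + J * B := by
                rw [norm_smul, Real.norm_natCast]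
                exact add_le_add hzx (mul_le_mul (by exact_mod_cast hi) hw₁B (norm_nonneg _)
                  (Nat.cast_nonneg _))
            _ ≤ r := hr2
        have h3 : f (z + ((i + 1 : ℕ) : ℝ) • w₁) = f z + i * f w₁ + f w₁ := by
          rw [map_add, map_smul, smul_eq_mul]; push_cast; ring
        rcases hloc _ hz' h2 with h | h
        · rw [h3] at h; push_cast; linarith
        · rw [h3] at h; linarith
    exact key J le_rfl
  have hchainR : ∀ z ∈ S, ‖z - x‖ ≤ rl → t + 1 ≤ f z → t + 1 ≤ f z - J * f w₁ := by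
    intro z hz hzx hfz
    have key : ∀ i : ℕ, i ≤ J → t + 1 ≤ f z - i * f w₁ := by
      intro i
      induction i with
      | zero => intro _; simpa using hfz
      | succ i ih =>
        intro hi
        have h1 := ih (by omega)
        have hz' : z + ((i + 1 : ℕ) : ℝ) • (-w₁) ∈ S := by
          apply hS z hz
          rw [Nat.cast_smul_eq_nsmul]
          exact L.nsmul_mem (L.neg_mem hj4) _
        have h2 : ‖z + ((i + 1 : ℕ) : ℝ) • (-w₁) - x‖ ≤ r := by
          have e1 : z + ((i + 1 : ℕ) : ℝ) • (-w₁) - x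
              = (z - x) + ((i + 1 : ℕ) : ℝ) • (-w₁) := by abel
          rw [e1]
          calc ‖(z - x) + ((i + 1 : ℕ) : ℝ) • (-w₁)‖ ≤ ‖z - x‖ + ‖((i + 1 : ℕ) : ℝ) • (-w₁)‖ :=
                norm_add_le _ _
            _ ≤ rl + J * B := by
                rw [norm_smul, Real.norm_natCast, norm_neg]
                exact add_le_add hzx (mul_le_mul (by exact_mod_cast hi) hw₁B (norm_nonneg _)
                  (Nat.cast_nonneg _))
            _ ≤ r := hr2
        have h3 : f (z + ((i + 1 : ℕ) : ℝ) • (-w₁)) = f z - i * f w₁ - f w₁ := by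
          rw [map_add, map_smul, smul_eq_mul, map_neg]; push_cast; ring
        rcases hloc _ hz' h2 with h | h
        · rw [h3] at h; linarith
        · rw [h3] at h; push_cast; linarith
    exact key J le_rfl
  have hDrl : D ≤ rl := by
    rw [hrl]
    nlinarith
  have hyx : ‖y - x‖ ≤ rl := le_trans hxy hDrl
  have hxx : ‖x - x‖ ≤ rl := by simpa using hrl0.le
  -- left right comparison
  have hLR : ∀ z ∈ S, ‖z - x‖ ≤ rl → f z ≤ t - 1 → ∀ z' ∈ S, ‖z' - x‖ ≤ rl → t + 1 ≤ f z' →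
      g z + 2 * ‖g‖ ≤ g z' := by
    intro z hz hzx hfz z' hz' hzx' hfz'
    have h1 := hchainL z hz hzx hfz
    have h2 := hchainR z' hz' hzx' hfz'
    have h3 : e (z' - z) ≤ ‖e‖ * (2 * rl) := by
      calc e (z' - z) ≤ ‖e (z' - z)‖ := le_abs_self _
        _ ≤ ‖e‖ * ‖z' - z‖ := e.le_opNorm _
        _ ≤ ‖e‖ * (2 * rl) := by
            apply mul_le_mul_of_nonneg_left _ hen0
            have : z' - z = (z' - x) - (z - x) := by abel
            rw [this]
            linarith [norm_sub_le (z' - x) (z - x)]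
    have h4 : e (z' - z) = (f z' - g z') - (f z - g z) := by
      rw [map_sub, heapp, heapp]
    have h5 : (J : ℝ) * (2 * ‖e‖) ≤ J * f w₁ :=
      mul_le_mul_of_nonneg_left henorm (Nat.cast_nonneg _)
    have h6 : (rl + 1) * (2 * ‖e‖) ≤ J * (2 * ‖e‖) :=
      mul_le_mul_of_nonneg_right hJ1 (by linarith)
    nlinarith
  -- threshold
  set A : Set ℝ := {a | ∃ z ∈ S, ‖z - x‖ ≤ rl ∧ f z ≤ t - 1 ∧ g z = a} with hA
  have hAne : A.Nonempty := ⟨g x, x, hx, hxx, hfx, rfl⟩
  have hAub : ∀ z' ∈ S, ‖z' - x‖ ≤ rl → t + 1 ≤ f z' → ∀ a ∈ A, a ≤ g z' - 2 * ‖g‖ := by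
    rintro z' hz' hzx' hfz' a ⟨z, hz, hzx, hfz, rfl⟩
    linarith [hLR z hz hzx hfz z' hz' hzx' hfz']
  have hAbdd : BddAbove A := ⟨_, fun a ha => hAub y hy hyx hfy a ha⟩
  set α := sSup A with hα
  have hleft : ∀ z ∈ S, ‖z - x‖ ≤ rl → f z ≤ t - 1 → g z ≤ α := fun z hz h1 h2 =>
    le_csSup hAbdd ⟨z, hz, h1, h2, rfl⟩
  have hright : ∀ z ∈ S, ‖z - x‖ ≤ rl → t + 1 ≤ f z → α + 2 * ‖g‖ ≤ g z := by
    intro z hz h1 h2
    have := csSup_le hAne (hAub z hz h1 h2)
    linarith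
  have hglob : ∀ z ∈ S, ‖g‖ ≤ |g z - (α + ‖g‖)| := by
    intro z hz
    by_contra hcon
    push Not at hcon
    rw [abs_lt] at hcon
    have h1 := hleft x hx hxx hfx
    have h2 := hright y hy hyx hfy
    have hgyx : g y - g x ≤ 2 * D := by
      have : g y - g x = g (y - x) := by rw [map_sub]
      rw [this]
      calc g (y - x) ≤ ‖g (y - x)‖ := le_abs_self _
        _ ≤ ‖g‖ * ‖y - x‖ := g.le_opNorm _
        _ ≤ 2 * D := mul_le_mul (by linarith) hxy (norm_nonneg _) (by norm_num)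
    obtain ⟨v', hv', hv'2⟩ := hL.cov (z - x)
    obtain ⟨j', hj'⟩ := hgall v' hv'
    have h3 : |g (z - x - v')| ≤ 2 * R := by
      calc |g (z - x - v')| = ‖g (z - x - v')‖ := rfl
        _ ≤ ‖g‖ * ‖z - x - v'‖ := g.le_opNorm _
        _ ≤ 2 * R := mul_le_mul (by linarith) hv'2 (norm_nonneg _) (by norm_num)
    have h4 : g (z - x - v') = g z - g x - j' * γ := by
      rw [map_sub, map_sub, hj']
    rw [h4, abs_le] at h3
    have h5 : |(j' : ℝ)| ≤ D + R := by
      have h6 : |(j' : ℝ) * γ| ≤ 2 * D + 2 * R := by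
        rw [abs_le]
        constructor <;> linarith
      rw [abs_mul, abs_of_pos hγpos] at h6
      have h7 := abs_nonneg (j' : ℝ)
      nlinarith
    set v := v' - (j' : ℝ) • v₀ with hv
    have hvL : v ∈ L := L.sub_mem hv' (zsmul_mem' hv₀ j')
    have hgv : g v = 0 := by
      rw [hv, map_sub, map_smul, smul_eq_mul, hgv₀, hj', sub_self]
    have hz' : z + (-v) ∈ S := hS z hz _ (L.neg_mem hvL)
    have hz'x : ‖z + (-v) - x‖ ≤ rl := by
      have e1 : z + (-v) - x = (z - x - v') + (j' : ℝ) • v₀ := by rw [hv]; abel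
      rw [e1]
      calc ‖(z - x - v') + (j' : ℝ) • v₀‖ ≤ ‖z - x - v'‖ + ‖(j' : ℝ) • v₀‖ := norm_add_le _ _
        _ ≤ R + (D + R) * B := by
            rw [norm_smul, Real.norm_eq_abs]
            exact add_le_add hv'2 (mul_le_mul h5 (by linarith) (norm_nonneg _) (by linarith))
    have hgz' : g (z + (-v)) = g z := by rw [map_add, map_neg, hgv]; ring
    have hrlr : rl ≤ r := by
      have : (0 : ℝ) ≤ J * B := by positivity
      linarith
    rcases hloc _ hz' (le_trans hz'x hrlr) with h | h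
    · have := hleft _ hz' hz'x h
      rw [hgz'] at this
      linarith
    · have := hright _ hz' hz'x h
      rw [hgz'] at this
      linarith
  refine ⟨g, α + ‖g‖, v₀, hv₀, hgpos, ?_, ?_, ?_, ?_, hglob⟩
  · -- two widths fit into one period
    rw [hgv₀]
    set a := (α - g x) / γ with ha
    have h1 := hleft x hx hxx hfx
    have ha0 : (⌊a⌋ : ℝ) * γ ≤ α - g x := by
      have := Int.floor_le a
      rw [ha, le_div_iff₀ hγpos] at this
      exact this
    have ha1 : α - g x < (⌊a⌋ + 1) * γ := by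
      have := Int.lt_floor_add_one a
      rw [ha, div_lt_iff₀ hγpos] at this
      exact this
    have hz : x + ((⌊a⌋ + 1 : ℤ) : ℝ) • v₀ ∈ S := hS x hx _ (zsmul_mem' hv₀ _)
    have hval : g (x + ((⌊a⌋ + 1 : ℤ) : ℝ) • v₀) = g x + (⌊a⌋ + 1) * γ := by
      rw [map_add, map_smul, smul_eq_mul, hgv₀]; push_cast; ring
    have hgz := hglob _ hz
    rw [hval] at hgz
    rcases le_abs.1 hgz with h | h
    · linarith
    · linarith
  · intro v hv
    obtain ⟨j, hj⟩ := hgall v hv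
    exact ⟨j, by rw [hj, hgv₀]⟩
  · have := hleft x hx hxx hfx
    linarith
  · have := hright y hy hyx hfy
    linarith

end Pool.Agent.H.MP_929345_co
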