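import Pool.Agent.H.MP_929345_co.Markov

/-! The densities of `ρ`-separable packings converge to the density of totally separable ones. -/

set_option autoImplicit false

namespace Pool.Agent.H.MP_929345_co

open Set Metric MeasureTheory Filter
open scoped ENNReal Pointwise Topology

variable {d : ℕ} {C : Set (Fin d → ℝ)}

theorem geom_bound (ε : ℝ) (n : ℕ) :
    ∑ i ∈ Finset.range n, ε / 2 ^ (i + 2) = ε / 2 - ε / 2 ^ (n + 1) := by
  induction n with
  | zero => simp
  | succ n ih =>
    rw [Finset.sum_range_succ, ih]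
    have : (2 : ℝ) ^ (n + 1 + 1) = 2 * 2 ^ (n + 1) := by ring
    rw [show n + 2 = n + 1 + 1 by ring, this]
    field_simp
    ring

theorem gam_le_gauge_dens (h : IsBody C) {ε : ℝ} (hε : 0 < ε) :
    ∃ S : Set (Fin d → ℝ), IsPacking C S ∧ TotSep C S ∧
      ENNReal.ofReal (gam C - 2 * ε) * volume C ≤ dens C S := by
  classical
  obtain ⟨a, ha, hC⟩ := h.exists_bound
  have hex : ∀ i : ℕ, ∃ r : ℕ, i ≤ r ∧ 0 < r ∧ aa C r < gam C + ε / 2 ^ (i + 2) :=
    fun i => exists_near h (by positivity) i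
  choose r hr1 hr2 hr3 using hex
  have hT : ∀ n : ℕ, ∃ T : Finset (Fin d → ℝ), TSP C (T : Set (Fin d → ℝ)) ∧ ∀ i < n,
      (gam C - ε) * (2 * r i) ^ d ≤
        ((T.filter (fun c : Fin d → ℝ => ∀ j, |c j| ≤ (r i : ℝ))).card : ℝ) := by
    intro n
    apply exists_good h hε n r (fun i _ => hr2 i)
    calc ∑ i ∈ Finset.range n, (aa C (r i) - gam C)
        ≤ ∑ i ∈ Finset.range n, ε / 2 ^ (i + 2) :=
          Finset.sum_le_sum fun i _ => by linarith [hr3 i]
      _ = ε / 2 - ε / 2 ^ (n + 1) := geom_bound ε n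
      _ ≤ ε / 2 := by
          have : 0 < ε / 2 ^ (n + 1) := by positivity
          linarith
  choose T hT1 hT2 using hT
  let U : Ultrafilter ℕ := hyperfilter ℕ
  have hU : ∀ i : ℕ, ∀ᶠ m in (U : Filter ℕ), i < m := by
    intro i
    have h1 : (U : Filter ℕ) ≤ atTop := Nat.hyperfilter_le_atTop
    exact h1 (eventually_gt_atTop i)
  set S := limSet U (fun m => (T m : Set (Fin d → ℝ))) with hS
  have hSp : IsPacking C S := limSet_packing h U _ hT1
  have hSt : TotSep C S := limSet_totSep h U _ hT1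
  refine ⟨S, hSp, hSt, ?_⟩
  -- the counting estimate
  have hcount : ∀ i, (gam C - ε) * (2 * r i) ^ d ≤ ((S ∩ Win C (r i + a)).ncard : ℝ) := by
    intro i
    set k := ⌈(gam C - ε) * (2 * r i) ^ d⌉₊ with hk
    have h1 : ∀ᶠ m in (U : Filter ℕ), ∃ p : Fin k → (Fin d → ℝ), Function.Injective p ∧
        ∀ j, p j ∈ (T m : Set (Fin d → ℝ)) ∧ ∀ i', |p j i'| ≤ (r i : ℝ) := by
      filter_upwards [hU i] with m hm
      have h2 := hT2 m i hm
      have h3 : k ≤ ((T m).filter (fun c : Fin d → ℝ => ∀ j, |c j| ≤ (r i : ℝ))).card := by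
        rw [hk, Nat.ceil_le]
        exact h2
      obtain ⟨A, hA, hAc⟩ := Finset.exists_subset_card_eq h3
      refine ⟨fun j => ((Finset.equivFinOfCardEq hAc).symm j : Fin d → ℝ), ?_, ?_⟩
      · intro j j' hjj
        exact (Finset.equivFinOfCardEq hAc).symm.injective (Subtype.ext hjj)
      · intro j
        have h4 := Finset.mem_filter.1 (hA ((Finset.equivFinOfCardEq hAc).symm j).2)
        exact ⟨h4.1, h4.2⟩
    obtain ⟨p, hp1, hp2⟩ := limSet_card h U _ hT1 (r i) k h1
    have hfin : (S ∩ Win C (r i + a)).Finite :=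
      finite_inter h (fun x hx y hy hxy => by linarith [hSp x hx y hy hxy]) (by positivity)
    have hsub : Set.range p ⊆ S ∩ Win C (r i + a) := by
      rintro _ ⟨j, rfl⟩
      refine ⟨(hp2 j).1, ?_⟩
      intro w hw i'
      exact le_trans (abs_add_le _ _) (add_le_add ((hp2 j).2 i') (hC w hw i'))
    have h5 : k ≤ (S ∩ Win C (r i + a)).ncard := by
      have h6 := Set.ncard_le_ncard hsub hfin
      rw [← Set.image_univ, Set.ncard_image_of_injective _ hp1, Set.ncard_univ,
        Nat.card_eq_fintype_card, Fintype.card_fin] at h6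
      exact h6
    calc (gam C - ε) * (2 * r i) ^ d ≤ k := Nat.le_ceil _
      _ ≤ _ := by exact_mod_cast h5
  -- frequently large
  rw [dens_def]
  apply le_limsup_of_frequently_le'
  rw [frequently_atTop]
  intro b
  rcases le_or_gt (gam C - 2 * ε) 0 with hneg | hpos
  · refine ⟨b, le_rfl, ?_⟩
    rw [ENNReal.ofReal_of_nonpos hneg, zero_mul]
    exact zero_le
  -- choose i large
  have hlim : Tendsto (fun i : ℕ => ((r i : ℝ) / (r i + a)) ^ d) atTop (𝓝 1) := by
    have h1 : Tendsto (fun i : ℕ => (r i : ℝ)) atTop atTop :=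
      tendsto_natCast_atTop_atTop.comp (tendsto_atTop_mono hr1 tendsto_id)
    have h2 : Tendsto (fun x : ℝ => x / (x + a)) atTop (𝓝 1) := by
      have h3 : Tendsto (fun x : ℝ => 1 - a / (x + a)) atTop (𝓝 (1 - 0)) := by
        apply Tendsto.sub tendsto_const_nhds
        exact Tendsto.div_atTop tendsto_const_nhds (tendsto_atTop_add_const_right _ _ tendsto_id)
      rw [sub_zero] at h3
      refine h3.congr' ?_
      filter_upwards [eventually_gt_atTop (0 : ℝ)] with x hx
      have : x + a ≠ 0 := by positivity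
      field_simp
      ring
    have h4 := (h2.comp h1).pow d
    simpa using h4
  have hev : ∀ᶠ i : ℕ in atTop, gam C - 2 * ε ≤ (gam C - ε) * ((r i : ℝ) / (r i + a)) ^ d := by
    have h5 : Tendsto (fun i : ℕ => (gam C - ε) * ((r i : ℝ) / (r i + a)) ^ d) atTop
        (𝓝 ((gam C - ε) * 1)) := hlim.const_mul _
    rw [mul_one] at h5
    exact (h5.eventually (lt_mem_nhds (show gam C - 2 * ε < gam C - ε by linarith))).mono
      fun _ h => h.le
  obtain ⟨i, hi1, hi2⟩ := (hev.and (eventually_ge_atTop ⌈b⌉₊)).exists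
  have hri : (0 : ℝ) < r i := by exact_mod_cast hr2 i
  refine ⟨r i + a, ?_, ?_⟩
  · have h1 : b ≤ ⌈b⌉₊ := Nat.le_ceil b
    have h2 : ((⌈b⌉₊ : ℕ) : ℝ) ≤ r i := by exact_mod_cast le_trans hi2 (hr1 i)
    linarith
  · rw [ENNReal.le_div_iff_mul_le (Or.inl (by
      rw [Ne, ENNReal.ofReal_eq_zero, not_le]; positivity)) (Or.inl ENNReal.ofReal_ne_top)]
    calc ENNReal.ofReal (gam C - 2 * ε) * volume C * ENNReal.ofReal ((2 * (r i + a)) ^ d)
        = ENNReal.ofReal ((gam C - 2 * ε) * (2 * (r i + a)) ^ d) * volume C := by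
          rw [mul_right_comm, ← ENNReal.ofReal_mul hpos.le]
      _ ≤ ENNReal.ofReal ((gam C - ε) * (2 * r i) ^ d) * volume C := by
          refine mul_le_mul' (ENNReal.ofReal_le_ofReal ?_) le_rfl
          calc (gam C - 2 * ε) * (2 * (r i + a)) ^ d
              ≤ ((gam C - ε) * ((r i : ℝ) / (r i + a)) ^ d) * (2 * (r i + a)) ^ d := by gcongr
            _ = (gam C - ε) * (2 * r i) ^ d := by
                rw [mul_assoc, ← mul_pow]
                congr 2
                field_simp
      _ ≤ ((S ∩ Win C (r i + a)).ncard : ℝ≥0∞) * volume C := by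
          gcongr
          rw [← ENNReal.ofReal_natCast]
          exact ENNReal.ofReal_le_ofReal (hcount i)

/-- the sup over totally separable packings is at least `gam C * vol C` -/
theorem gam_le_sup (h : IsBody C) : ENNReal.ofReal (gam C) * volume C ≤
    ⨆ S ∈ {S : Set (Fin d → ℝ) | IsPacking C S ∧ TotSep C S}, dens C S := by
  have hv := h.volume_ne_top
  have hlim : Tendsto (fun ε : ℝ => ENNReal.ofReal (gam C - 2 * ε) * volume C) (𝓝[>] 0)
      (𝓝 (ENNReal.ofReal (gam C) * volume C)) := by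
    apply ENNReal.Tendsto.mul_const _ (Or.inr hv)
    apply ENNReal.tendsto_ofReal
    have : Tendsto (fun ε : ℝ => gam C - 2 * ε) (𝓝 0) (𝓝 (gam C - 2 * 0)) := by
      apply Continuous.tendsto
      fun_prop
    rw [mul_zero, sub_zero] at this
    exact this.mono_left nhdsWithin_le_nhds
  refine le_of_tendsto hlim ?_
  filter_upwards [self_mem_nhdsWithin] with ε hε
  obtain ⟨S, h1, h2, h3⟩ := gam_le_gauge_dens h (ε := ε) hε
  refine le_trans h3 ?_
  exact le_biSup (f := fun S => dens C S)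
    (show S ∈ {S : Set (Fin d → ℝ) | IsPacking C S ∧ TotSep C S} from ⟨h1, h2⟩)

/-- the density of a `ρ`-separable packing is bounded by the density of finite families -/
theorem dens_le_aa (h : IsBody C) (r : ℕ) (hr : 0 < r) : ∃ ρ₀ : ℝ, ∀ ρ : ℝ, ρ₀ ≤ ρ →
    ∀ S : Set (Fin d → ℝ), IsPacking C S → RhoSep ρ C S →
      dens C S ≤ ENNReal.ofReal (aa C r) * volume C := by
  classical
  have hr' : (0 : ℝ) < r := by exact_mod_cast hr
  -- the gauge is bounded on cubes
  obtain ⟨K, hK0, hK⟩ : ∃ K : ℝ, 0 < K ∧ ∀ v : Fin d → ℝ, (∀ i, |v i| ≤ 2 * r) → gauge C v ≤ K := by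
    have hc : IsCompact (Set.Icc (fun _ : Fin d => -(2 * (r : ℝ))) (fun _ => 2 * (r : ℝ))) :=
      isCompact_Icc
    obtain ⟨K, hK⟩ := (hc.bddAbove_image h.continuous_gauge.continuousOn)
    refine ⟨max K 1, by positivity, fun v hv => ?_⟩
    exact le_trans (hK ⟨v, ⟨fun i => (abs_le.1 (hv i)).1, fun i => (abs_le.1 (hv i)).2⟩, rfl⟩)
      (le_max_left _ _)
  refine ⟨K + 1, fun ρ hρ S hSp hSr => ?_⟩
  have hρ0 : 0 < ρ := by linarith
  -- the members in a cube form a totally separable family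
  have hloc : ∀ (x : Fin d → ℝ) (T : Finset (Fin d → ℝ)), (T : Set (Fin d → ℝ)) ⊆ S →
      (T : Set (Fin d → ℝ)) ⊆ cub x r → T.card ≤ Nn C r := by
    intro x T hTS hTx
    rcases T.eq_empty_or_nonempty with rfl | ⟨c, hc⟩
    · simp
    have h1 : (T : Set (Fin d → ℝ)) ⊆ {c' ∈ S | ∀ w ∈ C, ∃ v ∈ C, c' + w = c + ρ • v} := by
      intro c' hc'
      refine ⟨hTS hc', fun w hw => ⟨ρ⁻¹ • (c' - c + w), ?_, ?_⟩⟩
      · rw [← h.gauge_le_one_iff, h.gauge_smul, abs_of_pos (inv_pos.2 hρ0), inv_mul_le_iff₀ hρ0]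
        have h2 := gauge_add_le h.convex h.absorbent (c' - c) w
        have h3 := h.gauge_le_one_iff.2 hw
        have h4 : gauge C (c' - c) ≤ K := by
          apply hK
          intro i
          have h5 := hTx hc i
          have h6 := hTx hc' i
          rw [Pi.sub_apply, abs_le]
          constructor <;> linarith [h5.1, h5.2, h6.1, h6.2]
        linarith
      · rw [smul_smul, mul_inv_cancel₀ hρ0.ne', one_smul]
        abel
    have hTS' : TSP C (T : Set (Fin d → ℝ)) := by
      refine ⟨fun a ha b hb hab => hSp a (hTS ha) b (hTS hb) hab, ?_⟩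
      intro a ha b hb hab
      obtain ⟨f, hf, t, g1, g2, g3⟩ := hSr c (hTS hc) a (h1 ha) b (h1 hb) hab
      exact ⟨f, hf, t, g1, g2, fun z hz w hw => g3 z (h1 hz) w hw⟩
    exact card_le_Nn h hr'.le T hTS' x hTx
  have h0C : (0 : Fin d → ℝ) ∈ C := interior_subset h.zero_mem_interior
  -- the pointwise bound
  have hpt : ∀ᶠ l : ℝ in atTop, ((S ∩ Win C l).ncard : ℝ≥0∞) * volume C /
      ENNReal.ofReal ((2 * l) ^ d) ≤ ENNReal.ofReal (aa C r * (1 + r / l) ^ d) * volume C := by
    filter_upwards [eventually_gt_atTop (0 : ℝ)] with l hl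
    have hfin : (S ∩ Win C l).Finite :=
      finite_inter h (fun x hx y hy hxy => by linarith [hSp x hx y hy hxy]) hl.le
    set m := ⌊l / r⌋₊ + 1 with hm
    have hm1 : l < m * r := by
      have := Nat.lt_floor_add_one (l / r)
      rw [div_lt_iff₀ hr'] at this
      rw [hm]; push_cast; exact this
    have hm2 : (m : ℝ) * r ≤ l + r := by
      have := Nat.floor_le (div_nonneg hl.le hr'.le)
      rw [le_div_iff₀ hr'] at this
      rw [hm]; push_cast; linarith
    have hcard : (S ∩ Win C l).ncard ≤ m ^ d * Nn C r := by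
      rw [Set.ncard_eq_toFinset_card _ hfin]
      apply card_le_of_local hfin.toFinset m (Nn C r) hr'
      · intro x T' hT' hx
        apply hloc x T' _ hx
        intro c hc
        have := hT' hc
        rw [Set.Finite.mem_toFinset] at this
        exact this.1
      · intro c hc i
        rw [Set.Finite.coe_toFinset] at hc
        have := hc.2 0 h0C i
        rw [Pi.zero_apply, add_zero] at this
        rw [Pi.zero_apply]
        have h3 := abs_le.1 this
        constructor <;> linarith [h3.1, h3.2]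
    have hreal : ((S ∩ Win C l).ncard : ℝ) ≤ (aa C r * (1 + r / l) ^ d) * (2 * l) ^ d := by
      have h1 : ((S ∩ Win C l).ncard : ℝ) ≤ m ^ d * Nn C r := by exact_mod_cast hcard
      have h2 : (Nn C r : ℝ) = aa C r * (2 * r) ^ d := by
        unfold aa
        rw [div_mul_cancel₀]
        positivity
      calc ((S ∩ Win C l).ncard : ℝ) ≤ m ^ d * Nn C r := h1
        _ = aa C r * (2 * (m * r)) ^ d := by rw [h2, mul_pow, mul_pow, mul_pow]; ring
        _ ≤ aa C r * (2 * (l + r)) ^ d := by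
            have := aa_nonneg C r
            gcongr
        _ = (aa C r * (1 + r / l) ^ d) * (2 * l) ^ d := by
            rw [mul_assoc, ← mul_pow]
            congr 2
            field_simp
    apply ENNReal.div_le_of_le_mul
    calc ((S ∩ Win C l).ncard : ℝ≥0∞) * volume C
        ≤ ENNReal.ofReal ((aa C r * (1 + r / l) ^ d) * (2 * l) ^ d) * volume C := by
          gcongr
          rw [← ENNReal.ofReal_natCast]
          exact ENNReal.ofReal_le_ofReal hreal
      _ = ENNReal.ofReal (aa C r * (1 + r / l) ^ d) * volume C * ENNReal.ofReal ((2 * l) ^ d) := by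
          rw [ENNReal.ofReal_mul (mul_nonneg (aa_nonneg C r) (by positivity)), mul_right_comm]
  have hlim : Tendsto (fun l : ℝ => ENNReal.ofReal (aa C r * (1 + r / l) ^ d) * volume C) atTop
      (𝓝 (ENNReal.ofReal (aa C r) * volume C)) := by
    apply ENNReal.Tendsto.mul_const _ (Or.inr h.volume_ne_top)
    apply ENNReal.tendsto_ofReal
    have h1 : Tendsto (fun l : ℝ => (r : ℝ) / l) atTop (𝓝 0) :=
      Tendsto.div_atTop tendsto_const_nhds tendsto_id
    have h2 := ((h1.const_add 1).pow d).const_mul (aa C r)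
    simpa using h2
  rw [dens_def, ← hlim.limsup_eq]
  exact limsup_le_limsup hpt

/-- The density of `ρ`-separable packings converges to the density of totally separable ones. -/
theorem tendsto_sup (h : IsBody C) :
    Tendsto (fun ρ : ℝ => ⨆ S ∈ {S : Set (Fin d → ℝ) | IsPacking C S ∧ RhoSep ρ C S}, dens C S)
      atTop (𝓝 (⨆ S ∈ {S : Set (Fin d → ℝ) | IsPacking C S ∧ TotSep C S}, dens C S)) := by
  have hlow : ∀ ρ : ℝ, (⨆ S ∈ {S : Set (Fin d → ℝ) | IsPacking C S ∧ TotSep C S}, dens C S) ≤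
      ⨆ S ∈ {S : Set (Fin d → ℝ) | IsPacking C S ∧ RhoSep ρ C S}, dens C S :=
    fun ρ => biSup_mono fun S hS => ⟨hS.1, hS.2.rhoSep ρ⟩
  rw [tendsto_order]
  refine ⟨fun c hc => Eventually.of_forall fun ρ => lt_of_lt_of_le hc (hlow ρ), fun c hc => ?_⟩
  have h1 : ENNReal.ofReal (gam C) * volume C < c := lt_of_le_of_lt (gam_le_sup h) hc
  have hlim : Tendsto (fun η : ℝ => ENNReal.ofReal (gam C + η) * volume C) (𝓝[>] 0)
      (𝓝 (ENNReal.ofReal (gam C) * volume C)) := by
    apply ENNReal.Tendsto.mul_const _ (Or.inr h.volume_ne_top)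
    apply ENNReal.tendsto_ofReal
    have : Tendsto (fun ε : ℝ => gam C + ε) (𝓝 0) (𝓝 (gam C + 0)) := by
      apply Continuous.tendsto
      fun_prop
    rw [add_zero] at this
    exact this.mono_left nhdsWithin_le_nhds
  obtain ⟨η, hη1, hη2⟩ := ((hlim.eventually (gt_mem_nhds h1)).and self_mem_nhdsWithin).exists
  obtain ⟨r, -, hr0, hr⟩ := exists_near h (η := η) hη2 0
  obtain ⟨ρ₀, hρ₀⟩ := dens_le_aa h r hr0
  filter_upwards [eventually_ge_atTop ρ₀] with ρ hρ
  refine lt_of_le_of_lt ?_ hη1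
  refine iSup₂_le fun S hS => ?_
  refine le_trans (hρ₀ ρ hρ S hS.1 hS.2) ?_
  gcongr

end Pool.Agent.H.MP_929345_co
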