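import Pool.Agent.H.MP_929345_co.Compact

/-! A point at which a maximal totally separable family is dense at many scales. -/

set_option autoImplicit false

namespace Pool.Agent.H.MP_929345_co

open Set Metric MeasureTheory Filter
open scoped ENNReal Pointwise Topology

variable {d : ℕ} {C : Set (Fin d → ℝ)}

/-- integer vector as a real vector -/
def icast (x : Fin d → ℤ) : Fin d → ℝ := fun i => (x i : ℝ)

/-- integer points of a cube -/
noncomputable def XX (d : ℕ) (R : ℕ) : Finset (Fin d → ℤ) :=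
  Fintype.piFinset (fun _ : Fin d => Finset.Ico (-(R : ℤ)) R)

theorem XX_card (R : ℕ) : (XX d R).card = (2 * R) ^ d := by
  unfold XX
  rw [Fintype.card_piFinset]
  simp only [Int.card_Ico, Finset.prod_const, Finset.card_univ, Fintype.card_fin]
  congr 1
  omega

theorem count_point (L R r : ℕ) (hr : r ≤ R) (t : Fin d → ℝ) (ht : t ∈ cub (0 : Fin d → ℝ) L)
    [DecidablePred fun x : Fin d → ℤ => t ∈ cub (icast x) r] :
    ((XX d (L + R)).filter (fun x => t ∈ cub (icast x) r)).card = (2 * r) ^ d := by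
  have h1 : (XX d (L + R)).filter (fun x => t ∈ cub (icast x) r) =
      Fintype.piFinset (fun i => Finset.Ioc (⌊t i⌋ - r) (⌊t i⌋ + r)) := by
    ext x
    rw [Finset.mem_filter, XX, Fintype.mem_piFinset, Fintype.mem_piFinset]
    simp only [Finset.mem_Ico, Finset.mem_Ioc]
    constructor
    · rintro ⟨-, h2⟩ i
      obtain ⟨h3, h4⟩ := h2 i
      simp only [icast] at h3 h4
      have h5 : x i - r ≤ ⌊t i⌋ := by
        rw [Int.le_floor]; push_cast; exact h3
      have h6 : ⌊t i⌋ < x i + r := by
        rw [Int.floor_lt]; push_cast; exact h4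
      constructor <;> linarith
    · intro h2
      have h7 : ∀ i, -(L : ℤ) ≤ ⌊t i⌋ ∧ ⌊t i⌋ < L := by
        intro i
        have h8 := ht i
        rw [Pi.zero_apply] at h8
        refine ⟨?_, ?_⟩
        · rw [Int.le_floor]; push_cast; linarith [h8.1]
        · rw [Int.floor_lt]; push_cast; linarith [h8.2]
      refine ⟨fun i => ?_, fun i => ?_⟩
      · obtain ⟨h3, h4⟩ := h2 i
        obtain ⟨h5, h6⟩ := h7 i
        push_cast
        constructor <;> omega
      · obtain ⟨h3, h4⟩ := h2 i
        simp only [icast]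
        have h5 : x i - r ≤ ⌊t i⌋ := by omega
        have h6 : ⌊t i⌋ < x i + r := by omega
        rw [Int.le_floor] at h5
        rw [Int.floor_lt] at h6
        push_cast at h5 h6
        exact ⟨h5, h6⟩
  rw [h1, Fintype.card_piFinset]
  have h2 : ∀ i : Fin d, (Finset.Ioc (⌊t i⌋ - (r : ℤ)) (⌊t i⌋ + r)).card = 2 * r := by
    intro i
    rw [Int.card_Ioc]
    omega
  simp only [h2, Finset.prod_const, Finset.card_univ, Fintype.card_fin]

theorem sum_count (L R r : ℕ) (hr : r ≤ R) (T : Finset (Fin d → ℝ))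
    (hT : (T : Set (Fin d → ℝ)) ⊆ cub (0 : Fin d → ℝ) L)
    [∀ t : Fin d → ℝ, DecidablePred fun x : Fin d → ℤ => t ∈ cub (icast x) r] :
    ∑ x ∈ XX d (L + R), (T.filter (fun t => t ∈ cub (icast x) r)).card = T.card * (2 * r) ^ d := by
  calc ∑ x ∈ XX d (L + R), (T.filter (fun t => t ∈ cub (icast x) r)).card
      = ∑ t ∈ T, ((XX d (L + R)).filter (fun x => t ∈ cub (icast x) r)).card := by
        simp only [Finset.card_filter]
        rw [Finset.sum_comm]
    _ = ∑ t ∈ T, (2 * r) ^ d := by
        apply Finset.sum_congr rfl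
        intro t ht
        exact count_point L R r hr t (hT ht)
    _ = T.card * (2 * r) ^ d := by rw [Finset.sum_const, smul_eq_mul]

open Classical in
theorem bad_count (h : IsBody C) {ε : ℝ} (hε : 0 < ε) (L R r : ℕ) (hr0 : 0 < r) (hr : r ≤ R)
    (T : Finset (Fin d → ℝ)) (hT : TSP C (T : Set (Fin d → ℝ)))
    (hTL : (T : Set (Fin d → ℝ)) ⊆ cub (0 : Fin d → ℝ) L) :
    (((XX d (L + R)).filter (fun x =>
      ((T.filter (fun t => t ∈ cub (icast x) r)).card : ℝ) < (gam C - ε) * (2 * r) ^ d)).card : ℝ) * ε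
      ≤ (XX d (L + R)).card * aa C r - T.card := by
  set X := XX d (L + R) with hX
  set f : (Fin d → ℤ) → ℕ := fun x => (T.filter (fun t => t ∈ cub (icast x) r)).card with hf
  set B := X.filter (fun x => (f x : ℝ) < (gam C - ε) * (2 * r) ^ d) with hB
  have hr' : (0 : ℝ) < r := by exact_mod_cast hr0
  have hp : (0 : ℝ) < (2 * r) ^ d := by positivity
  have hsum : ∑ x ∈ X, (f x : ℝ) = T.card * (2 * r) ^ d := by
    have := sum_count L R r hr T hTL
    have h2 : ((∑ x ∈ X, f x : ℕ) : ℝ) = ((T.card * (2 * r) ^ d : ℕ) : ℝ) := by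
      exact_mod_cast this
    push_cast at h2
    exact h2
  have hfN : ∀ x, (f x : ℝ) ≤ aa C r * (2 * r) ^ d := by
    intro x
    have h1 : f x ≤ Nn C r := by
      apply card_le_Nn h hr'.le _ (hT.mono (by exact_mod_cast Finset.filter_subset _ _)) (icast x)
      intro t ht
      rw [Finset.coe_filter] at ht
      exact ht.2
    unfold aa
    rw [div_mul_cancel₀ _ hp.ne']
    exact_mod_cast h1
  have hsplit : ∑ x ∈ X, (f x : ℝ) = ∑ x ∈ B, (f x : ℝ) + ∑ x ∈ X \ B, (f x : ℝ) := by
    rw [add_comm, Finset.sum_sdiff (Finset.filter_subset _ _)]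
  have h1 : ∑ x ∈ B, (f x : ℝ) ≤ B.card * ((gam C - ε) * (2 * r) ^ d) := by
    rw [← nsmul_eq_mul]
    apply Finset.sum_le_card_nsmul
    intro x hx
    exact (Finset.mem_filter.1 hx).2.le
  have h2 : ∑ x ∈ X \ B, (f x : ℝ) ≤ ((X \ B).card : ℝ) * (aa C r * (2 * r) ^ d) := by
    rw [← nsmul_eq_mul]
    apply Finset.sum_le_card_nsmul
    intro x hx
    exact hfN x
  have h3 : ((X \ B).card : ℝ) = X.card - B.card := by
    rw [Finset.card_sdiff_of_subset (Finset.filter_subset _ _), Nat.cast_sub]
    exact Finset.card_le_card (Finset.filter_subset _ _)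
  rw [h3] at h2
  have h4 : (T.card : ℝ) * (2 * r) ^ d ≤
      (B.card * (gam C - ε) + (X.card - B.card) * aa C r) * (2 * r) ^ d := by
    rw [← hsum, hsplit]
    nlinarith
  have h5 : (T.card : ℝ) ≤ B.card * (gam C - ε) + (X.card - B.card) * aa C r :=
    le_of_mul_le_mul_right h4 hp
  have h6 := gam_le (C := C) r hr0
  have h7 : (0 : ℝ) ≤ B.card := by positivity
  nlinarith

open Classical in
theorem exists_good (h : IsBody C) {ε : ℝ} (hε : 0 < ε) (n : ℕ) (r : ℕ → ℕ)
    (hr : ∀ i < n, 0 < r i)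
    (hsum : ∑ i ∈ Finset.range n, (aa C (r i) - gam C) ≤ ε / 2) :
    ∃ T : Finset (Fin d → ℝ), TSP C (T : Set (Fin d → ℝ)) ∧ ∀ i < n,
      (gam C - ε) * (2 * r i) ^ d ≤ ((T.filter (fun c : Fin d → ℝ => ∀ j, |c j| ≤ (r i : ℝ))).card : ℝ) := by
  set R := ∑ i ∈ Finset.range n, r i with hR
  have hrR : ∀ i < n, r i ≤ R := fun i hi =>
    Finset.single_le_sum (f := r) (fun _ _ => Nat.zero_le _) (Finset.mem_range.2 hi)
  obtain ⟨L, hL⟩ := exists_nat_gt (4 * n * gam C * d * R / ε)
  have hL' : 4 * n * gam C * d * R < L * ε := by rwa [div_lt_iff₀ hε] at hL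
  have hγ := gam_nonneg C
  have hL0 : 0 < L := by
    have : (0 : ℝ) < L := lt_of_le_of_lt (by positivity) hL
    exact_mod_cast this
  have hLr : (0 : ℝ) < L := by exact_mod_cast hL0
  obtain ⟨T, hT, hTL, hTc⟩ := exists_max h (r := (L : ℝ)) hLr.le
  set X := XX d (L + R) with hX
  have hXc : (X.card : ℝ) = (2 * ((L : ℝ) + R)) ^ d := by
    rw [hX, XX_card]; push_cast; ring
  have hXpos : (0 : ℝ) < X.card := by rw [hXc]; positivity
  have hTc' : gam C * (2 * L) ^ d ≤ T.card := by
    have h1 := gam_le (C := C) L hL0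
    unfold aa at h1
    rw [le_div_iff₀ (by positivity)] at h1
    rw [hTc]; exact h1
  -- the loss at the boundary
  have hloss : (n : ℝ) * (X.card * gam C - T.card) ≤ ε / 4 * X.card := by
    have h1 : 1 - (d : ℝ) * (R / (L + R)) ≤ ((L : ℝ) / (L + R)) ^ d := by
      have h2 : (L : ℝ) / (L + R) = 1 + (-(R / (L + R))) := by
        field_simp; ring
      rw [h2]
      have h3 : (-2 : ℝ) ≤ -((R : ℝ) / (L + R)) := by
        have : (R : ℝ) / (L + R) ≤ 1 := by
          rw [div_le_one (by positivity)]; linarith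
        linarith
      have := one_add_mul_le_pow h3 d
      linarith
    have h4 : (2 * (L : ℝ)) ^ d = X.card * ((L : ℝ) / (L + R)) ^ d := by
      rw [hXc, ← mul_pow]
      congr 1
      field_simp
    have h5 : X.card * gam C - T.card ≤ X.card * gam C * (d * (R / (L + R))) := by
      have h6 : X.card * gam C * (1 - (d : ℝ) * (R / (L + R))) ≤ T.card := by
        calc X.card * gam C * (1 - (d : ℝ) * (R / (L + R)))
            ≤ X.card * gam C * ((L : ℝ) / (L + R)) ^ d := by gcongr
          _ = gam C * (2 * L) ^ d := by rw [h4]; ring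
          _ ≤ T.card := hTc'
      nlinarith
    have h7 : (n : ℝ) * (gam C * (d * (R / (L + R)))) ≤ ε / 4 := by
      have h8 : (n : ℝ) * (gam C * (d * (R / (L + R)))) = (4 * n * gam C * d * R) / (4 * (L + R)) := by
        field_simp
      rw [h8, div_le_iff₀ (by positivity)]
      have : (0 : ℝ) ≤ R := by positivity
      nlinarith
    calc (n : ℝ) * (X.card * gam C - T.card)
        ≤ n * (X.card * gam C * (d * (R / (L + R)))) := by gcongr
      _ = X.card * ((n : ℝ) * (gam C * (d * (R / (L + R))))) := by ring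
      _ ≤ X.card * (ε / 4) := by gcongr
      _ = ε / 4 * X.card := by ring
  -- bad sets
  let B : ℕ → Finset (Fin d → ℤ) := fun i => X.filter (fun x =>
      ((T.filter (fun t => t ∈ cub (icast x) (r i))).card : ℝ) < (gam C - ε) * (2 * r i) ^ d)
  have hB : ∀ i < n, ((B i).card : ℝ) * ε ≤ X.card * aa C (r i) - T.card := fun i hi =>
    bad_count h hε L R (r i) (hr i hi) (hrR i hi) T hT hTL
  have hBsum : (∑ i ∈ Finset.range n, ((B i).card : ℝ)) * ε ≤ 3 / 4 * ε * X.card := by
    rw [Finset.sum_mul]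
    calc ∑ i ∈ Finset.range n, ((B i).card : ℝ) * ε
        ≤ ∑ i ∈ Finset.range n, (X.card * aa C (r i) - T.card) :=
          Finset.sum_le_sum fun i hi => hB i (Finset.mem_range.1 hi)
      _ = ∑ i ∈ Finset.range n, (X.card * (aa C (r i) - gam C) + (X.card * gam C - T.card)) := by
          apply Finset.sum_congr rfl
          intro i _
          ring
      _ = X.card * ∑ i ∈ Finset.range n, (aa C (r i) - gam C) + n * (X.card * gam C - T.card) := by
          rw [Finset.sum_add_distrib, ← Finset.mul_sum, Finset.sum_const, Finset.card_range,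
            nsmul_eq_mul]
      _ ≤ X.card * (ε / 2) + ε / 4 * X.card := by
          gcongr
      _ = 3 / 4 * ε * X.card := by ring
  have hBlt : ((Finset.range n).biUnion B).card < X.card := by
    have h1 : (((Finset.range n).biUnion B).card : ℝ) ≤ ∑ i ∈ Finset.range n, ((B i).card : ℝ) := by
      exact_mod_cast Finset.card_biUnion_le
    have h2 : ∑ i ∈ Finset.range n, ((B i).card : ℝ) ≤ 3 / 4 * X.card := by
      have h3 : (∑ i ∈ Finset.range n, ((B i).card : ℝ)) * ε ≤ (3 / 4 * X.card) * ε := by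
        rw [show (3 / 4 * (X.card : ℝ)) * ε = 3 / 4 * ε * X.card by ring]
        exact hBsum
      exact le_of_mul_le_mul_right h3 hε
    have h4 : (((Finset.range n).biUnion B).card : ℝ) < X.card := by linarith
    exact_mod_cast h4
  obtain ⟨x, hxX, hxB⟩ : ∃ x ∈ X, x ∉ (Finset.range n).biUnion B := by
    by_contra hcon
    push Not at hcon
    exact absurd (Finset.card_le_card hcon) (not_le.2 hBlt)
  have hinj : Function.Injective (fun y : Fin d → ℝ => y + -icast x) := fun a b hab => by
    simpa using hab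
  refine ⟨T.image (fun y => y + -icast x), ?_, ?_⟩
  · rw [Finset.coe_image]
    exact hT.image _
  · intro i hi
    have h1 : x ∉ B i := fun hx => hxB (Finset.mem_biUnion.2 ⟨i, Finset.mem_range.2 hi, hx⟩)
    have h2 : (gam C - ε) * (2 * r i) ^ d ≤
        ((T.filter (fun t => t ∈ cub (icast x) (r i))).card : ℝ) := by
      by_contra hcon
      exact h1 (Finset.mem_filter.2 ⟨hxX, not_le.1 hcon⟩)
    refine le_trans h2 ?_
    have h3 : ((T.filter (fun t => t ∈ cub (icast x) (r i))).image (fun y => y + -icast x)).card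
        = (T.filter (fun t => t ∈ cub (icast x) (r i))).card :=
      Finset.card_image_of_injective _ hinj
    rw [← h3]
    norm_cast
    apply Finset.card_le_card
    intro y hy
    obtain ⟨t, ht, rfl⟩ := Finset.mem_image.1 hy
    obtain ⟨ht1, ht2⟩ := Finset.mem_filter.1 ht
    refine Finset.mem_filter.2 ⟨Finset.mem_image.2 ⟨t, ht1, rfl⟩, fun j => ?_⟩
    have := ht2 j
    rw [Pi.add_apply, Pi.neg_apply, abs_le]
    constructor <;> linarith [this.1, this.2]

end Pool.Agent.H.MP_929345_co
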