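import Pool.Agent.H.MP_929345_co.Density

/-! A periodic packing of positive density has a dense lattice of periods. -/

set_option autoImplicit false

namespace Pool.Agent.H.MP_929345_co

open Set Metric MeasureTheory Filter
open scoped ENNReal Pointwise Topology

variable {d : ℕ} {C : Set (Fin d → ℝ)}

/-- the lattice spanned by `b` -/
def lat (b : Fin d → (Fin d → ℝ)) : AddSubgroup (Fin d → ℝ) where
  carrier := {x | ∃ n : Fin d → ℤ, x = ∑ i, (n i : ℝ) • b i}
  zero_mem' := ⟨0, by simp⟩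
  add_mem' := by
    rintro x y ⟨n, rfl⟩ ⟨m, rfl⟩
    refine ⟨n + m, ?_⟩
    rw [← Finset.sum_add_distrib]
    apply Finset.sum_congr rfl
    intro i _
    rw [Pi.add_apply, Int.cast_add, add_smul]
  neg_mem' := by
    rintro x ⟨n, rfl⟩
    refine ⟨-n, ?_⟩
    rw [← Finset.sum_neg_distrib]
    apply Finset.sum_congr rfl
    intro i _
    rw [Pi.neg_apply, Int.cast_neg, neg_smul]

theorem periodic_form {k : ℕ} {S : Set (Fin d → ℝ)} (hS : IsPeriodic k S) :
    ∃ (L : AddSubgroup (Fin d → ℝ)) (F : Finset (Fin d → ℝ)), F.card ≤ k ∧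
      S = {x | ∃ s ∈ F, ∃ v ∈ L, x = s + v} := by
  obtain ⟨b, -, F, hF, rfl⟩ := hS
  refine ⟨lat b, F, hF, ?_⟩
  ext x
  constructor
  · rintro ⟨s, hs, n, rfl⟩
    exact ⟨s, hs, _, ⟨n, rfl⟩, rfl⟩
  · rintro ⟨s, hs, v, ⟨n, rfl⟩, rfl⟩
    exact ⟨s, hs, n, rfl⟩

/-- The period lattice of a dense periodic packing is `R`-dense. -/
theorem cov_of_dens (h : IsBody C) (L : AddSubgroup (Fin d → ℝ)) (F : Finset (Fin d → ℝ))
    (hL : ∀ v ∈ L, v ≠ 0 → 2 ≤ gauge C v) (N : ℕ) (hN : 0 < N)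
    (hdens : ENNReal.ofReal (F.card * 2 ^ d / N) < dens C {x | ∃ s ∈ F, ∃ v ∈ L, x = s + v}) :
    ∀ p, ∃ v ∈ L, gauge C (p - v) ≤ 3 / 2 * N := by
  classical
  by_contra hcon
  push Not at hcon
  obtain ⟨p, hp⟩ := hcon
  set A : Set ℝ := {a | ∃ v ∈ L, gauge C (p - v) = a} with hA
  have hAne : A.Nonempty := ⟨_, 0, L.zero_mem, rfl⟩
  have hAbdd : BddBelow A := ⟨0, by rintro a ⟨v, _, rfl⟩; exact gauge_nonneg _⟩
  set D := sInf A with hD
  have hDle : ∀ v ∈ L, D ≤ gauge C (p - v) := fun v hv => csInf_le hAbdd ⟨v, hv, rfl⟩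
  obtain ⟨a, ⟨v₀, hv₀, rfl⟩, ha⟩ := exists_lt_of_csInf_lt hAne (show sInf A < D + 1 / 4 by linarith)
  set p' := p - v₀ with hp'
  set G := gauge C p' with hG
  have hG1 : 3 / 2 * N < G := hp v₀ hv₀
  have hN' : (0 : ℝ) < N := by exact_mod_cast hN
  have hGpos : 0 < G := by linarith
  let q : Fin N → (Fin d → ℝ) := fun j => (3 / 2 * (j : ℕ) / G : ℝ) • p'
  have hq1 : ∀ i : Fin N, gauge C (q i) = 3 / 2 * (i : ℕ) := by
    intro i
    simp only [q]
    rw [h.gauge_smul, abs_of_nonneg (by positivity), ← hG]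
    field_simp
  have hq2 : ∀ i : Fin N, gauge C (p' - q i) = G - 3 / 2 * (i : ℕ) := by
    intro i
    have h1 : p' - q i = (1 - 3 / 2 * (i : ℕ) / G : ℝ) • p' := by
      simp only [q]; rw [sub_smul, one_smul]
    have h2 : ((i : ℕ) : ℝ) ≤ N := by exact_mod_cast i.2.le
    rw [h1, h.gauge_smul, abs_of_nonneg (by
      rw [sub_nonneg, div_le_one hGpos]; linarith), ← hG]
    field_simp
  have hsep' : ∀ i j : Fin N, i < j → ∀ v ∈ L, 1 ≤ gauge C (q j - q i - v) := by
    intro i j hij v hv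
    have h1 : D ≤ gauge C (p' - v) := by
      have := hDle (v₀ + v) (L.add_mem hv₀ hv)
      rwa [hp', sub_sub]
    have h2 : p' - v = (p' - q j) + ((q j - q i - v) + q i) := by abel
    have h3 := gauge_add_le h.convex h.absorbent (p' - q j) ((q j - q i - v) + q i)
    have h4 := gauge_add_le h.convex h.absorbent (q j - q i - v) (q i)
    rw [← h2, hq2] at h3
    rw [hq1] at h4
    have h5 : ((i : ℕ) : ℝ) + 1 ≤ (j : ℕ) := by exact_mod_cast hij
    linarith
  have hsep : ∀ i j : Fin N, i ≠ j → ∀ v ∈ L, 1 ≤ gauge C (q i - q j - v) := by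
    intro i j hij v hv
    rcases lt_or_gt_of_ne hij with hlt | hlt
    · have := hsep' i j hlt (-v) (L.neg_mem hv)
      have e1 : q j - q i - -v = -(q i - q j - v) := by abel
      rwa [e1, gauge_neg h.symm] at this
    · exact hsep' j i hlt v hv
  have hinj : Function.Injective q := by
    intro i j hij
    by_contra hne
    have := hsep i j hne 0 L.zero_mem
    rw [hij, sub_self, sub_self, gauge_zero] at this
    norm_num at this
  have hcard : (Finset.univ.image q).card = N := by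
    rw [Finset.card_image_of_injective _ hinj, Finset.card_univ, Fintype.card_fin]
  have := dens_le h L F (Finset.univ.image q) (by rw [hcard]; exact hN)
    (fun v hv hv0 => by linarith [hL v hv hv0])
    (by
      intro a ha b hb hab
      obtain ⟨i, -, rfl⟩ := Finset.mem_image.1 ha
      obtain ⟨j, -, rfl⟩ := Finset.mem_image.1 hb
      exact hsep i j (fun hh => hab (by rw [hh])))
  rw [hcard] at this
  exact absurd hdens (not_lt.2 this)

/-- Main structural theorem: periodic `ρ`-separable packings of positive density with boundedly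
many translates are totally separable. -/
theorem structural (h : IsBody C) (k : ℕ) (δ : ℝ) (hδ : 0 < δ) :
    ∃ ρ₀ : ℝ, 1 ≤ ρ₀ ∧ ∀ ρ : ℝ, ρ₀ ≤ ρ → ∀ S : Set (Fin d → ℝ), IsPeriodic k S →
      IsPacking C S → RhoSep ρ C S → ENNReal.ofReal δ ≤ dens C S → TotSep C S := by
  obtain ⟨N, hN⟩ := exists_nat_gt (k * 2 ^ d / δ)
  have hN0 : 0 < N := by
    have : (0 : ℝ) < N := lt_of_le_of_lt (by positivity) hN
    exact_mod_cast this
  have hN0' : (0 : ℝ) < N := by exact_mod_cast hN0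
  rw [div_lt_iff₀ hδ] at hN
  obtain ⟨ρ₀, hρ₀, hmain⟩ := transfer (C := C) h (max 4 (3 / 2 * N)) (le_max_left _ _)
  refine ⟨ρ₀, hρ₀, ?_⟩
  intro ρ hρ S hSper hSpack hSrho hSdens
  obtain ⟨L, F, hF, rfl⟩ := periodic_form hSper
  set S : Set (Fin d → ℝ) := {x | ∃ s ∈ F, ∃ v ∈ L, x = s + v} with hS
  rcases F.eq_empty_or_nonempty with hFe | ⟨s, hs⟩
  · intro x hx
    obtain ⟨s, hs, -⟩ := hx
    rw [hFe] at hs
    exact absurd hs (Finset.notMem_empty _)
  have hL : ∀ v ∈ L, v ≠ 0 → 2 ≤ gauge C v := by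
    intro v hv hv0
    have h1 : s + v ∈ S := ⟨s, hs, v, hv, rfl⟩
    have h2 : s ∈ S := ⟨s, hs, 0, L.zero_mem, by simp⟩
    have := hSpack _ h1 _ h2 (by simpa using hv0)
    simpa using this
  have hcov := cov_of_dens h L F hL N hN0 (by
    refine lt_of_lt_of_le ?_ hSdens
    rw [ENNReal.ofReal_lt_ofReal_iff hδ, div_lt_iff₀ hN0']
    have : (F.card : ℝ) ≤ k := by exact_mod_cast hF
    have h2 : (0 : ℝ) < 2 ^ d := by positivity
    nlinarith)
  exact hmain ρ hρ L hL (fun p => by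
      obtain ⟨v, hv, hv2⟩ := hcov p
      exact ⟨v, hv, le_trans hv2 (le_max_right _ _)⟩) S
    (by
      rintro z ⟨s', hs', v, hv, rfl⟩ w hw
      exact ⟨s', hs', v + w, L.add_mem hv hw, by abel⟩) hSrho

end Pool.Agent.H.MP_929345_co
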